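import Pool.Agent.Run7.h953.Node

set_option autoImplicit false

/-!
# Branches through good sets
-/

namespace Run7.h953

open Set Topology Filter

/-- The closed set of all `x` whose `d`-th column has maximum `m`. -/
def V (d m : ℕ) : Set K := {x | x (d, m) = true ∧ ∀ m', m < m' → x (d, m') = false}

theorem isClosed_V (d m : ℕ) : IsClosed (V d m) := by
  have h : V d m = {x : K | x (d, m) = true} ∩ ⋂ m', ⋂ _ : m < m', {x : K | x (d, m') = false} := by
    ext x
    simp [V]
  have key : ∀ (z : ℕ × ℕ) (b : Bool), IsClosed {x : K | x z = b} := fun z b => by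
    have : {x : K | x z = b} = (fun y : K => y z) ⁻¹' {b} := rfl
    rw [this]
    exact (isClosed_discrete _).preimage (continuous_apply z)
  rw [h]
  exact (key _ _).inter (isClosed_iInter fun m' => isClosed_iInter fun _ => key _ _)

theorem V_unique {x : K} {d m m' : ℕ} (h : x ∈ V d m) (h' : x ∈ V d m') : m = m' := by
  rcases lt_trichotomy m m' with h1 | h1 | h1
  · have := h.2 m' h1
    rw [h'.1] at this
    exact absurd this (by simp)
  · exact h1
  · have := h'.2 m h1
    rw [h.1] at this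
    exact absurd this (by simp)

/-- Every good set has a point in its closure, whose columns have infinitely often the maximum
given by `g`. -/
theorem exists_branch {A : Set Node} (hA : Good A) {g : ℕ → ℕ} (hg : Tendsto g atTop atTop) :
    ∃ x ∈ closure (pt '' A), ∃ᶠ d in atTop, x ∈ V d (g d) := by
  classical
  have hstart : ∃ s ∈ A, s.b = true := by
    obtain ⟨s, hs⟩ := hA.ne
    by_cases hb : s.b = true
    · exact ⟨s, hs, hb⟩
    · obtain ⟨c, hc, h1, -⟩ := (hA.full s hs (by simpa using hb)).2 (s.m + 1) le_rfl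
      exact ⟨c, hc, h1.1⟩
  have hstep : ∀ s : {s : Node // s ∈ A ∧ s.b = true}, ∃ (d : ℕ) (c : {s : Node // s ∈ A ∧ s.b = true}),
      (∀ z ∈ s.1.u, z.1 < d) ∧ C (mk s.1 d) c.1 ∧ c.1.m = g d := by
    rintro ⟨s, hs, hb⟩
    obtain ⟨D, hD⟩ := (tendsto_atTop.1 hg (s.m + 1)).exists_forall_of_atTop
    obtain ⟨d, hd, hdA⟩ := hA.open' s hs hb (max D (s.u.sup Prod.fst + 1))
    obtain ⟨c, hc, h1, h2, -⟩ := (hA.full _ hdA rfl).2 (g d) (hD d ((le_max_left _ _).trans hd))
    refine ⟨d, ⟨c, hc, h1.1⟩, fun z hz => ?_, h1, h2⟩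
    have h3 : z.1 ≤ s.u.sup Prod.fst := Finset.le_sup (f := Prod.fst) hz
    have h4 := (le_max_right D (s.u.sup Prod.fst + 1)).trans hd
    omega
  choose δ κ h1 h2 h3 using hstep
  obtain ⟨s0, hs0, hb0⟩ := hstart
  let s : ℕ → {s : Node // s ∈ A ∧ s.b = true} := fun k => Nat.rec ⟨s0, hs0, hb0⟩ (fun _ t => κ t) k
  have hs : ∀ k, s (k + 1) = κ (s k) := fun k => rfl
  let d : ℕ → ℕ := fun k => δ (s k)
  have hsub : ∀ k, (s k).1.u ⊆ (s (k + 1)).1.u := fun k => by
    rw [hs]
    exact (h2 (s k)).2.2.2.1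
  have hmono : ∀ j k, j ≤ k → (s j).1.u ⊆ (s k).1.u := fun j k h =>
    monotone_nat_of_le_succ (f := fun k => (s k).1.u) hsub h
  have hnew : ∀ k, ∀ z ∈ (s (k + 1)).1.u, z ∉ (s k).1.u → z.1 = d k ∧ z.2 ≤ g (d k) := by
    intro k z hz hzs
    rw [hs] at hz
    obtain ⟨a1, -, a3⟩ := (h2 (s k)).2.2.2.2.1 z hz hzs
    rw [h3 (s k)] at a3
    exact ⟨a1, a3⟩
  have hin : ∀ k, (d k, g (d k)) ∈ (s (k + 1)).1.u := by
    intro k
    have := (h2 (s k)).2.2.2.2.2
    rw [h3 (s k)] at this
    exact this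
  have hd : StrictMono d := strictMono_nat_of_lt_succ fun k => h1 (s (k + 1)) _ (hin k)
  have hlow : ∀ k j, k ≤ j → ∀ z ∈ (s j).1.u, z ∉ (s k).1.u → d k ≤ z.1 := by
    intro k j hkj
    induction j, hkj using Nat.le_induction with
    | base => exact fun z hz hz' => absurd hz hz'
    | succ j hkj ih =>
      intro z hz hz'
      by_cases hzj : z ∈ (s j).1.u
      · exact ih z hzj hz'
      · rw [(hnew j z hz hzj).1]
        exact hd.monotone hkj
  let x : K := fun z => decide (∃ k, z ∈ (s k).1.u)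
  have hx : ∀ z, x z = true ↔ ∃ k, z ∈ (s k).1.u := fun z => decide_eq_true_iff
  refine ⟨x, ?_, ?_⟩
  · refine mem_closure_iff.2 fun O hO hxO => ?_
    obtain ⟨p, hp⟩ := exists_nb_subset hO hxO
    refine ⟨pt (s p).1, hp ?_, (s p).1, (s p).2.1, rfl⟩
    intro z hz1 _
    simp only [pt, x]
    congr 1
    apply propext
    constructor
    · exact fun h => ⟨p, h⟩
    · rintro ⟨k, hk⟩
      by_contra hzp
      have hkp : p ≤ k := by
        by_contra hc
        exact hzp (hmono k p (by omega) hk)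
      have h4 := hlow p k hkp z hk hzp
      have h5 := hd.le_apply (x := p)
      omega
  · rw [frequently_atTop]
    intro N
    refine ⟨d N, hd.le_apply, (hx _).2 ⟨N + 1, hin N⟩, fun m' hm' => ?_⟩
    by_contra hc
    rw [Bool.not_eq_false] at hc
    obtain ⟨k, hk⟩ := (hx _).1 hc
    have key : ∀ k, (d N, m') ∉ (s k).1.u := by
      intro k
      induction k with
      | zero =>
        intro h
        have := h1 (s N) _ (hmono 0 N (Nat.zero_le _) h)
        exact absurd this (lt_irrefl _)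
      | succ k ih =>
        intro h
        obtain ⟨a1, a2⟩ := hnew k _ h ih
        have hNk : N = k := hd.injective a1
        subst hNk
        omega
    exact key k hk

end Run7.h953
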