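import Pool.Agent.Run7.h953.Space

set_option autoImplicit false

/-!
# The continuum hypothesis
-/

namespace Run7.h953

open Set Topology Filter Cardinal

theorem exists_node (x : K) (p : ℕ) : ∃ s : Node, nb (pt s) p = nb x p := by
  classical
  let s : Node := ⟨(Finset.range p ×ˢ Finset.range p).filter fun z => x z = true, 0, 0, true⟩
  refine ⟨s, nb_eq fun z h1 h2 => ?_⟩
  simp only [pt, s, Finset.mem_filter, Finset.mem_product, Finset.mem_range, h1, h2, and_self,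
    true_and, Bool.decide_eq_true]

theorem mk_open_le : #{O : Set K // IsOpen O} ≤ 𝔠 := by
  have hinj : Function.Injective fun O : {O : Set K // IsOpen O} =>
      {z : Node × ℕ | nb (pt z.1) z.2 ⊆ O.1} := by
    have key : ∀ O O' : {O : Set K // IsOpen O}, {z : Node × ℕ | nb (pt z.1) z.2 ⊆ O.1} ⊆
        {z : Node × ℕ | nb (pt z.1) z.2 ⊆ O'.1} → O.1 ⊆ O'.1 := by
      intro O O' h x hx
      obtain ⟨p, hp⟩ := exists_nb_subset O.2 hx
      obtain ⟨s, hs⟩ := exists_node x p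
      have h1 : (s, p) ∈ {z : Node × ℕ | nb (pt z.1) z.2 ⊆ O.1} := by
        show nb (pt s) p ⊆ O.1
        rw [hs]
        exact hp
      have h2 : nb (pt s) p ⊆ O'.1 := h h1
      rw [hs] at h2
      exact h2 (mem_nb_self x p)
    intro O O' h
    exact Subtype.ext (Subset.antisymm (key O O' (Eq.subset h)) (key O' O (Eq.subset h.symm)))
  refine (mk_le_of_injective hinj).trans ?_
  rw [mk_set, ← two_power_aleph0]
  exact power_le_power_left two_ne_zero (mk_le_aleph0_iff.2 inferInstance)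

/-- The requirements. -/
abbrev Req : Type := (ℕ → ℕ) ⊕ {PQ : (ℕ → ℕ → Set K) × (ℕ → ℕ → Set K) //
      (∀ k m, IsOpen (PQ.1 k m)) ∧ ∀ k m, IsOpen (PQ.2 k m)}

theorem mk_req_le : #Req ≤ 𝔠 := by
  have h1 : #(ℕ → ℕ → {O : Set K // IsOpen O}) ≤ 𝔠 := by
    have h2 : #(ℕ → {O : Set K // IsOpen O}) ≤ 𝔠 := by
      rw [← power_def, mk_nat]
      calc #{O : Set K // IsOpen O} ^ ℵ₀ ≤ 𝔠 ^ ℵ₀ := power_le_power_right mk_open_le
        _ = 𝔠 := continuum_power_aleph0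
    rw [← power_def, mk_nat]
    calc #(ℕ → {O : Set K // IsOpen O}) ^ ℵ₀ ≤ 𝔠 ^ ℵ₀ := power_le_power_right h2
      _ = 𝔠 := continuum_power_aleph0
  have h3 : #{PQ : (ℕ → ℕ → Set K) × (ℕ → ℕ → Set K) //
      (∀ k m, IsOpen (PQ.1 k m)) ∧ ∀ k m, IsOpen (PQ.2 k m)} ≤ 𝔠 := by
    have hinj : Function.Injective fun PQ : {PQ : (ℕ → ℕ → Set K) × (ℕ → ℕ → Set K) //
        (∀ k m, IsOpen (PQ.1 k m)) ∧ ∀ k m, IsOpen (PQ.2 k m)} =>
        ((fun k m => ⟨PQ.1.1 k m, PQ.2.1 k m⟩ : ℕ → ℕ → {O : Set K // IsOpen O}),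
          (fun k m => ⟨PQ.1.2 k m, PQ.2.2 k m⟩ : ℕ → ℕ → {O : Set K // IsOpen O})) := by
      rintro ⟨⟨P, Q⟩, hP⟩ ⟨⟨P', Q'⟩, hP'⟩ h
      simp only [Prod.mk.injEq] at h
      obtain ⟨h4, h5⟩ := h
      refine Subtype.ext (Prod.ext ?_ ?_)
      · funext k m
        exact congrArg Subtype.val (congrFun (congrFun h4 k) m)
      · funext k m
        exact congrArg Subtype.val (congrFun (congrFun h5 k) m)
    refine (mk_le_of_injective hinj).trans ?_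
    rw [mk_prod]
    simp only [lift_id]
    calc _ ≤ 𝔠 * 𝔠 := mul_le_mul' h1 h1
      _ = 𝔠 := continuum_mul_self
  have h4 : #(ℕ → ℕ) = 𝔠 := by
    rw [← power_def, mk_nat, aleph0_power_aleph0]
  rw [mk_sum]
  simp only [lift_id]
  rw [h4]
  calc _ ≤ 𝔠 + 𝔠 := add_le_add_right h3 _
    _ = 𝔠 := continuum_add_self

/-- Under the continuum hypothesis there is a subset of `K` with the properties. -/
theorem exists_set_of_CH (hCH : ℵ₁ = (𝔠 : Cardinal.{0})) (X0 : Set K) (hX0 : X0.Countable) :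
    ∃ X : Set K, X0 ⊆ X ∧
      (∀ g : ℕ → ℕ, Tendsto g atTop atTop → ∃ x ∈ X, ∃ᶠ d in atTop, x ∈ V d (g d)) ∧
      ∀ P Q : ℕ → ℕ → Set K, (∀ k m, IsOpen (P k m)) → (∀ k m, IsOpen (Q k m)) →
        (∀ x ∈ X, ∀ k, Fine (P k) (Q k) x) →
        ∃ μ : ℕ → ℕ, StrictMono μ ∧ ∀ x ∈ X, ∀ᶠ k in atTop, x ∈ Q k (μ k) := by
  have hle : #Req ≤ #((ℵ₁ : Cardinal.{0}).ord.ToType) := by
    rw [mk_toType, card_ord, hCH]
    exact mk_req_le
  obtain ⟨f⟩ := (Cardinal.le_def _ _).1 hle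
  have hne : Nonempty Req := ⟨Sum.inl id⟩
  refine exists_set (ι := (ℵ₁ : Cardinal.{0}).ord.ToType) (fun i => ?_) (Function.invFun f)
    (Function.invFun_surjective f.injective) X0 hX0
  have h : #(Set.Iio i) < ℵ₁ := mk_Iio_toType_ord_lt i
  have h1 : ℵ₁ ≤ Order.succ (ℵ₀ : Cardinal.{0}) := succ_aleph0.ge
  exact mk_le_aleph0_iff.1 (Order.lt_succ_iff.1 (h.trans_le h1))

/-- Under the continuum hypothesis the conjecture fails. -/
theorem main_CH (hCH : ℵ₁ = (𝔠 : Cardinal.{0})) :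
    ∃ Z : Set ℝ, (∀ f : ℕ → C(Z, ℝ),
      (∀ x : Z, Filter.Tendsto (fun n => f n x) Filter.atTop (nhds 0)) →
      ∃ φ : ℕ → ℕ, StrictMono φ ∧ ∃ ε : ℕ → ℝ, (∀ n, 0 < ε n) ∧
        Filter.Tendsto ε Filter.atTop (nhds 0) ∧
        ∀ x : Z, ∀ᶠ n in Filter.atTop, |f (φ n) x| < ε n) ∧
    ¬ ∀ 𝒰 : ℕ → Set (Set Z),
      (∀ n, (∀ U ∈ 𝒰 n, IsOpen U) ∧ (𝒰 n).Infinite ∧ Set.univ ∉ 𝒰 n ∧
        ∀ x : Z, Set.Finite {U | U ∈ 𝒰 n ∧ x ∉ U}) →
      ∃ U : ℕ → Set Z, (∀ n, U n ∈ 𝒰 n) ∧ (Set.range U).Infinite ∧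
        ∀ x : Z, Set.Finite {V | V ∈ Set.range U ∧ x ∉ V} := by
  obtain ⟨X, h0, h1, h2⟩ := exists_set_of_CH hCH (range fun z : ℕ × ℕ => single z.1 z.2)
    (countable_range _)
  exact main_real (fun d m => h0 ⟨(d, m), rfl⟩) h1 h2

end Run7.h953
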