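import Pool.Agent.Run7.h953.Poset

set_option autoImplicit false

/-!
# A generic chain of length `ω₁`
-/

namespace Run7.h953

open Set Topology Filter

theorem exists_chain {P : Type*} [Preorder P] [Nonempty P]
    (hP : ∀ s : ℕ → P, (∀ n, s (n + 1) ≤ s n) → ∃ q, ∀ n, q ≤ s n)
    {ι : Type*} [LinearOrder ι] [WellFoundedLT ι] (hc : ∀ i : ι, Countable (Iio i))
    (D : ι → Set P) (hD : ∀ i p, ∃ q ≤ p, q ∈ D i) :
    ∃ G : ι → P, (∀ i, G i ∈ D i) ∧ ∀ i j, i ≤ j → G j ≤ G i := by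
  classical
  let G : ι → P := WellFounded.fix (wellFounded_lt (α := ι)) fun i g =>
    if h : ∃ q ∈ D i, ∀ j (hj : j < i), q ≤ g j hj then h.choose else Classical.arbitrary P
  have hG : ∀ i, G i = if h : ∃ q ∈ D i, ∀ j, j < i → q ≤ G j then h.choose
      else Classical.arbitrary P := fun i => by
    rw [show G i = _ from WellFounded.fix_eq _ _ i]
  have key : ∀ i, G i ∈ D i ∧ ∀ j, j < i → G i ≤ G j := by
    intro i
    induction i using WellFoundedLT.induction with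
    | ind i ih =>
      have hex : ∃ q ∈ D i, ∀ j, j < i → q ≤ G j := by
        have hlow : ∃ p : P, ∀ j, j < i → p ≤ G j := by
          rcases isEmpty_or_nonempty (Iio i) with h | h
          · exact ⟨Classical.arbitrary P, fun j hj => (h.false ⟨j, hj⟩).elim⟩
          · have := hc i
            obtain ⟨e, he⟩ := exists_surjective_nat (Iio i)
            let t : ℕ → Iio i := fun n => Nat.rec (e 0) (fun n x => max x (e (n + 1))) n
            have ht : ∀ n, t n ≤ t (n + 1) := fun n => le_max_left _ _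
            have het : ∀ n, e n ≤ t n := by
              intro n
              cases n with
              | zero => exact le_rfl
              | succ n => exact le_max_right _ _
            obtain ⟨p, hp⟩ := hP (fun n => G (t n).1) (fun n => by
              rcases (ht n).eq_or_lt with h1 | h1
              · rw [← h1]
              · exact (ih _ (t (n + 1)).2).2 _ h1)
            refine ⟨p, fun j hj => ?_⟩
            obtain ⟨n, hn⟩ := he ⟨j, hj⟩
            have h2 : (⟨j, hj⟩ : Iio i) ≤ t n := hn ▸ het n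
            have h2' : j ≤ (t n).1 := h2
            refine (hp n).trans ?_
            rcases h2'.eq_or_lt with h3 | h3
            · rw [← h3]
            · exact (ih _ (t n).2).2 _ h3
        obtain ⟨p, hp⟩ := hlow
        obtain ⟨q, hq, hqD⟩ := hD i p
        exact ⟨q, hqD, fun j hj => hq.trans (hp j hj)⟩
      have h1 : G i = hex.choose := by
        rw [hG i, dif_pos hex]
      rw [h1]
      exact hex.choose_spec
  refine ⟨G, fun i => (key i).1, fun i j hij => ?_⟩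
  rcases hij.eq_or_lt with h | h
  · rw [h]
  · exact (key j).2 i h

instance : Nonempty Cond :=
  ⟨⟨∅, {univ}, countable_empty, countable_singleton _, singleton_nonempty _, by
    rintro A rfl
    exact good_univ⟩⟩

/-- Every countable set of points can be put into the first component of a condition. -/
theorem exists_start (X : Set K) (hX : X.Countable) : ∃ p : Cond, p.X = X :=
  ⟨⟨X, {univ}, hX, countable_singleton _, singleton_nonempty _, by
    rintro A rfl
    exact good_univ⟩, rfl⟩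

theorem exists_set {ι : Type*} [LinearOrder ι] [WellFoundedLT ι] (hc : ∀ i : ι, Countable (Iio i))
    (R : ι → (ℕ → ℕ) ⊕ {PQ : (ℕ → ℕ → Set K) × (ℕ → ℕ → Set K) //
      (∀ k m, IsOpen (PQ.1 k m)) ∧ ∀ k m, IsOpen (PQ.2 k m)})
    (hR : Function.Surjective R) (X0 : Set K) (hX0 : X0.Countable) :
    ∃ X : Set K, X0 ⊆ X ∧
      (∀ g : ℕ → ℕ, Tendsto g atTop atTop → ∃ x ∈ X, ∃ᶠ d in atTop, x ∈ V d (g d)) ∧
      ∀ P Q : ℕ → ℕ → Set K, (∀ k m, IsOpen (P k m)) → (∀ k m, IsOpen (Q k m)) →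
        (∀ x ∈ X, ∀ k, Fine (P k) (Q k) x) →
        ∃ μ : ℕ → ℕ, StrictMono μ ∧ ∀ x ∈ X, ∀ᶠ k in atTop, x ∈ Q k (μ k) := by
  classical
  obtain ⟨p0, hp0⟩ := exists_start X0 hX0
  let P0 : Type := {p : Cond // p ≤ p0}
  have hne : Nonempty P0 := ⟨⟨p0, le_rfl⟩⟩
  let D1 : (ℕ → ℕ) → Set P0 := fun g => {p | Tendsto g atTop atTop →
    ∃ x ∈ p.1.X, ∃ᶠ d in atTop, x ∈ V d (g d)}
  let D2 : {PQ : (ℕ → ℕ → Set K) × (ℕ → ℕ → Set K) //
      (∀ k m, IsOpen (PQ.1 k m)) ∧ ∀ k m, IsOpen (PQ.2 k m)} → Set P0 := fun PQ =>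
    {q | (∃ x ∈ q.1.X, ∃ k, ¬ Fine (PQ.1.1 k) (PQ.1.2 k) x) ∨
      ∃ μ : ℕ → ℕ, StrictMono μ ∧ (∀ x ∈ q.1.X, ∀ᶠ k in atTop, x ∈ PQ.1.2 k (μ k)) ∧
        ∀ A ∈ q.1.T, ∀ x ∈ closure (pt '' A), ∀ᶠ k in atTop, x ∈ PQ.1.2 k (μ k)}
  obtain ⟨G, hG, hGm⟩ := exists_chain (P := P0) (by
      intro s hs
      obtain ⟨q, hq⟩ := sigma_closed (fun n => (s n).1) hs
      exact ⟨⟨q, (hq 0).trans (s 0).2⟩, hq⟩) hc (fun i => Sum.elim D1 D2 (R i)) (by
      rintro i ⟨p, hp⟩
      rcases R i with g | PQ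
      · by_cases hg : Tendsto g atTop atTop
        · obtain ⟨q, hq, h⟩ := dense_branch p hg
          exact ⟨⟨q, hq.trans hp⟩, hq, fun _ => h⟩
        · exact ⟨⟨p, hp⟩, le_rfl, fun h => absurd h hg⟩
      · obtain ⟨q, hq, h⟩ := dense_select p PQ.2.1 PQ.2.2
        exact ⟨⟨q, hq.trans hp⟩, hq, h⟩)
  refine ⟨⋃ i, (G i).1.X, ?_, fun g hg => ?_, fun P Q hP hQ hF => ?_⟩
  · obtain ⟨i, -⟩ := hR (Sum.inl id)
    rw [← hp0]
    exact (G i).2.1.trans (subset_iUnion (fun i => (G i).1.X) i)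
  · obtain ⟨i, hi⟩ := hR (Sum.inl g)
    have h1 := hG i
    rw [hi] at h1
    obtain ⟨x, hx, h2⟩ := h1 hg
    exact ⟨x, mem_iUnion.2 ⟨i, hx⟩, h2⟩
  · obtain ⟨i, hi⟩ := hR (Sum.inr ⟨(P, Q), hP, hQ⟩)
    have h1 := hG i
    rw [hi] at h1
    rcases h1 with ⟨x, hx, k, hk⟩ | ⟨μ, hμ, h2, h3⟩
    · exact absurd (hF x (mem_iUnion.2 ⟨i, hx⟩) k) hk
    · refine ⟨μ, hμ, fun x hx => ?_⟩
      obtain ⟨j, hj⟩ := mem_iUnion.1 hx
      rcases le_total i j with h | h
      · by_cases hxi : x ∈ (G i).1.X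
        · exact h2 x hxi
        · obtain ⟨A, hA, hxA⟩ := (hGm i j h).2.1 x hj hxi
          exact h3 A hA x hxA
      · exact h2 x ((hGm j i h).1 hj)

end Run7.h953
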