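import Pool.Agent.Run7.h953.WQN

set_option autoImplicit false

/-!
# The generic set of reals does not satisfy `S₁(Γ, Γ)`
-/

namespace Run7.h953

open Set Topology Filter Sent

variable {e : K → ℝ}

/-- the open sets of reals whose traces form the `γ`-covers -/
def GG (e : K → ℝ) (d m : ℕ) : Set ℝ := (e '' (V d m ∪ {single 0 m}))ᶜ

theorem isOpen_GG (he : IsEmbedding e) (d m : ℕ) : IsOpen (GG e d m) := by
  have h : IsCompact (V d m ∪ {single 0 m}) :=
    ((isClosed_V d m).union isClosed_singleton).isCompact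
  exact (h.image he.continuous).isClosed.isOpen_compl

theorem mem_GG (he : IsEmbedding e) {d m : ℕ} {x : K} :
    e x ∈ GG e d m ↔ x ∉ V d m ∧ x ≠ single 0 m := by
  simp only [GG, mem_compl_iff, he.injective.mem_set_image, mem_union, mem_singleton_iff, not_or]

theorem single_not_mem (he : IsEmbedding e) (d m : ℕ) : e (single d m) ∉ GG e d m := by
  rw [mem_GG he]
  exact fun h => h.1 (single_mem_V.2 ⟨rfl, rfl⟩)

/-- the names of the members of the `γ`-covers -/
def On (e : K → ℝ) (d m : ℕ) : ℚ × ℚ → Set PP := openName (GG e d m)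

/-- the names of the `γ`-covers -/
def Un (e : K → ℝ) (d : ℕ) (O : ℚ × ℚ → Set PP) : Set PP := {_p | ∃ m, O = On e d m}

theorem mem_meets_Un {d : ℕ} {O : ℚ × ℚ → Set PP} {p : PP} :
    p ∈ meets (Un e d O) ↔ ∃ m, O = On e d m := meets_ground

theorem inOpen_On (he : IsEmbedding e) {p : PP} {x : K} (hx : x ∈ p.1.X) {d m : ℕ} :
    p ∈ InOpen (En e x) (On e d m) ↔ x ∉ V d m ∧ x ≠ single 0 m := by
  rw [On, (isVal_mem hx).inOpen (isOpen_GG he d m), mem_GG he]

/-- different members have different traces -/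
theorem not_sameTrace (he : IsEmbedding e) {p : PP} {d m d' m' : ℕ} (h : (d, m) ≠ (d', m')) :
    p ∉ SameTrace (En e) (On e d m) (On e d' m') := by
  -- the point which separates them
  have key : ∀ d m d' m' : ℕ, (d, m) ≠ (d', m') → (d ≠ 0 ∨ d' = 0) →
      p ∉ SameTrace (En e) (On e d m) (On e d' m') := by
    intro d m d' m' h hd hs
    have h1 : p ∉ InOpen (En e (single d m)) (On e d m) := by
      rw [inOpen_On he (p.2 d m)]
      exact fun h => h.1 (single_mem_V.2 ⟨rfl, rfl⟩)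
    refine h1 ((sameTrace_iff.1 hs p le_rfl (single d m)).2 ?_)
    rw [inOpen_On he (p.2 d m), single_mem_V]
    refine ⟨fun h' => h (Prod.ext h'.1 h'.2), fun h' => ?_⟩
    obtain ⟨h2, h3⟩ := single_inj h'
    rcases hd with hd | hd
    · exact hd h2
    · exact h (Prod.ext (h2.trans hd.symm) h3)
  by_cases hd : d ≠ 0 ∨ d' = 0
  · exact key d m d' m' h hd
  · push Not at hd
    exact fun hs => key d' m' d m h.symm (Or.inl hd.2) (SameTrace.symm hs)

theorem isGammaCover_Un (he : IsEmbedding e) (d : ℕ) (p : PP) : p ∈ IsGammaCover (En e) (Un e d) := by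
  refine ⟨fun m W => ?_, fun O => fimp_intro fun q _ hq => ?_, fun y => ?_⟩
  · refine mem_fex.2 fun q _ => ?_
    obtain ⟨r, hr, hdec⟩ := decide_countable sigmaClosed_PP
      (fun i : ℕ × ℕ => SameTrace (En e) (On e d i.1) (W i.2)) (fun i => (reg_SameTrace _ _ _).down) q
    have hex : ∃ j, ∀ k < m, r ∈ fnot (SameTrace (En e) (On e d j) (W k)) := by
      by_contra hc
      push Not at hc
      choose k hk hk' using hc
      have hs : ∀ j, r ∈ SameTrace (En e) (On e d j) (W (k j)) := fun j =>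
        (hdec (j, k j)).resolve_right (hk' j)
      obtain ⟨i, j, hij, hkk⟩ := Finite.exists_ne_map_eq_of_infinite
        (fun j : ℕ => (⟨k j, hk j⟩ : Fin m))
      have hkk' : k i = k j := congrArg Fin.val hkk
      have h1 := hs i
      rw [hkk'] at h1
      exact not_sameTrace he (fun h => hij (Prod.ext_iff.1 h).2) (SameTrace.trans h1 (SameTrace.symm (hs j)))
    obtain ⟨j, hj⟩ := hex
    exact ⟨r, hr, On e d j, mem_meets_Un.2 ⟨j, rfl⟩, fun k hk => hj k hk⟩
  · obtain ⟨m, rfl⟩ := mem_meets_Un.1 hq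
    refine fex_intro (single d m) (down_fnot _) fun r _ hr => ?_
    rw [inOpen_On he (r.2 d m)] at hr
    exact hr.1 (single_mem_V.2 ⟨rfl, rfl⟩)
  · refine mem_fex.2 fun q _ => ?_
    obtain ⟨r, hr, x, hx, hval⟩ := exists_point (e := e) q y
    have hfin : ∃ M, ∀ m, M ≤ m → x ∉ V d m ∧ x ≠ single 0 m := by
      have h4 : {m | x ∈ V d m}.Finite :=
        Set.Subsingleton.finite fun m hm m' hm' => V_unique hm hm'
      have h5 : {m | x = single 0 m}.Finite :=
        Set.Subsingleton.finite fun m hm m' hm' => (single_inj (hm.symm.trans hm')).2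
      obtain ⟨M, hM⟩ := (h4.union h5).bddAbove
      refine ⟨M + 1, fun m hm => ?_⟩
      constructor
      · intro h
        have := hM (Or.inl h)
        omega
      · intro h
        have := hM (Or.inr h)
        omega
    obtain ⟨M, hM⟩ := hfin
    refine ⟨r, hr, M, mem_fex.2 fun r1 hr1 => ⟨r1, le_rfl, fun k => On e d k, fun O =>
      fimp_intro fun t ht hO => ?_⟩⟩
    obtain ⟨j, rfl⟩ := mem_meets_Un.1 hO.1
    have hj : j < M := by
      by_contra hc
      refine hO.2 t le_rfl ?_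
      rw [On, ((hval.mono hr1).mono ht).inOpen (isOpen_GG he d j), mem_GG he]
      exact hM j (not_lt.1 hc)
    exact fex_intro j (reg_fand (reg_fground _) (reg_SameTrace _ _ _)).down
      ⟨hj, SameTrace.refl _ _ _⟩

theorem not_S1 (he : IsEmbedding e) (p : PP) : p ∈ fnot (IsS1GammaGamma (En e)) := by
  intro q _ hq
  have h0 := fimp_elim (p := q) (q := q) (φ := fall fun n => IsGammaCover (En e) (Un e n))
    (down_fall fun n => (reg_fand (reg_fall fun _ => reg_fall fun _ => reg_fex _)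
      (reg_fand (reg_fall fun _ => reg_fimp (reg_meets _).down _)
        (reg_fall fun _ => reg_fex _))).down) (reg_fex _) (hq (Un e)) le_rfl
    (fun n => isGammaCover_Un he n q)
  obtain ⟨r, _, W, hW, hWg⟩ := mem_fex.1 h0 q le_rfl
  -- decide the selection
  obtain ⟨r1, hr1, hsel⟩ := meet_countable sigmaClosed_PP
    (fun n : ℕ => {t | ∃ j, t ∈ SameTrace (En e) (W n) (On e n j)})
    (fun n t ⟨j, hj⟩ t' ht' => ⟨j, (reg_SameTrace _ _ _).down _ hj _ ht'⟩) r (by
      intro n t ht
      obtain ⟨t', ht', O, hO, hs⟩ := mem_fex.1 ((reg_fex _).down _ (hW n) _ ht) t le_rfl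
      obtain ⟨j, rfl⟩ := mem_meets_Un.1 hO
      exact ⟨t', ht', j, hs⟩)
  choose g hg using hsel
  -- a point outside infinitely many of the selected sets
  have hx : ∃ r2 ≤ r1, ∃ x ∈ r2.1.X, ∃ᶠ d in atTop, ¬ (x ∉ V d (g d) ∧ x ≠ single 0 (g d)) := by
    by_cases hginf : Tendsto g atTop atTop
    · obtain ⟨r0, hr0, x, hx, h⟩ := dense_branch r1.1 hginf
      obtain ⟨r2, hr2, rfl⟩ := PP.lift hr0
      exact ⟨r2, hr2, x, hx, h.mono fun d hd hc => hc.1 hd⟩
    · obtain ⟨m, hm⟩ : ∃ m, ∃ᶠ d in atTop, g d = m := by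
        by_contra hc
        push Not at hc
        refine hginf (tendsto_atTop.2 fun b => ?_)
        have h1 : ∀ᶠ d in atTop, ∀ m ∈ Finset.range b, g d ≠ m := by
          rw [Filter.eventually_all_finset]
          exact fun m _ => hc m
        filter_upwards [h1] with d hd
        by_contra hlt
        exact hd (g d) (Finset.mem_range.2 (not_le.1 hlt)) rfl
      exact ⟨r1, le_rfl, single 0 m, r1.2 0 m, hm.mono fun d hd hc => hc.2 (by rw [hd])⟩
  obtain ⟨r2, hr2, x, hx, hfreq⟩ := hx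
  have hr2r : r2 ≤ r := hr2.trans hr1
  -- almost all members contain the point
  have hall := (reg_fex _).down _ (hWg.2.2 x) _ hr2r
  obtain ⟨r3, hr3, m, h3⟩ := mem_fex.1 hall r2 le_rfl
  obtain ⟨r4, hr4, Z, h4⟩ := mem_fex.1 h3 r3 le_rfl
  have hr42 : r4 ≤ r2 := hr4.trans hr3
  have hxr4 : x ∈ r4.1.X := PP.mem_mono hr42 hx
  have hs4 : ∀ n, r4 ∈ SameTrace (En e) (W n) (On e n (g n)) := fun n =>
    (reg_SameTrace _ _ _).down _ (hg n) _ (hr42.trans hr2)
  -- the infinite set of the bad indices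
  let D : Set ℕ := {d | ¬ (x ∉ V d (g d) ∧ x ≠ single 0 (g d))}
  have hD : D.Infinite := Nat.frequently_atTop_iff_infinite.1 hfreq
  have hbad : ∀ d ∈ D, r4 ∈ fex fun k : ℕ => fand (fground (k < m)) (SameTrace (En e) (W d) (Z k)) := by
    intro d hd
    refine fimp_elim (reg_fand (reg_meets _) (reg_fnot (reg_InOpen _ _).down)).down (reg_fex _)
      (h4 (W d)) le_rfl ⟨meets_of_mem ⟨d, rfl⟩, fun t ht htW => ?_⟩
    have h5 := (sameTrace_iff.1 (hs4 d) t ht x).1 htW
    rw [inOpen_On he (PP.mem_mono ht hxr4)] at h5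
    exact hd h5
  obtain ⟨r5, hr5, hfin⟩ := meet_countable sigmaClosed_PP
    (fun d : D => {t | ∃ k < m, t ∈ SameTrace (En e) (W d) (Z k)})
    (fun n t ⟨j, hj, hj'⟩ t' ht' => ⟨j, hj, (reg_SameTrace _ _ _).down _ hj' _ ht'⟩) r4 (by
      rintro ⟨d, hd⟩ t ht
      obtain ⟨t', ht', k, hk, hs⟩ := mem_fex.1 (hbad d hd) t ht
      exact ⟨t', ht', k, hk, hs⟩)
  choose k hk hk' using hfin
  have : Infinite D := hD.to_subtype
  obtain ⟨i, j, hij, hkk⟩ := Finite.exists_ne_map_eq_of_infinite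
    (fun d : D => (⟨k d, hk d⟩ : Fin m))
  have hkk' : k i = k j := congrArg Fin.val hkk
  have h1 := hk' i
  rw [hkk'] at h1
  have h2 : r5 ∈ SameTrace (En e) (W i) (W j) := SameTrace.trans h1 (SameTrace.symm (hk' j))
  have h3 : r5 ∈ SameTrace (En e) (On e i (g i)) (On e j (g j)) :=
    SameTrace.trans (SameTrace.trans (SameTrace.symm ((reg_SameTrace _ _ _).down _ (hs4 i) _ hr5)) h2)
      ((reg_SameTrace _ _ _).down _ (hs4 j) _ hr5)
  exact not_sameTrace he (fun h => hij (Subtype.ext (Prod.ext_iff.1 h).1)) h3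

/-- Scheepers' conjecture fails in the extension. -/
theorem conjectureFails (p : PP) : p ∈ fex fun Y : Type => fex fun E : Y → ℚ → Set PP =>
    fand (fall fun y => IsReal (E y)) (fand (IsWQN E) (fnot (IsS1GammaGamma E))) := by
  obtain ⟨e, he⟩ := exists_embedding
  refine mem_fex.2 fun q _ => ⟨q, le_rfl, K, mem_fex.2 fun r _ => ⟨r, le_rfl, En e,
    fun y => isReal_En r y, isWQN_En he r, not_S1 he r⟩⟩

end Run7.h953
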