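import Pool.Agent.Run7.h953.CH
import Pool.Agent.Run7.h953.NotS1

/-!
Scheepers' conjecture (every wQN set of reals satisfies `S₁(Γ, Γ)`) fails in a generic extension by
a `σ`-closed notion of forcing, and it fails under the continuum hypothesis.
-/

set_option autoImplicit false

namespace Run7.h953.ConsistentlyFails

open Run7.h953.Sent

/-- (1) There is a nonempty preordered set `P` of conditions in which every decreasing sequence has
a lower bound, such that every condition forces that some set of reals `{E y : y ∈ Y}` is a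
wQN-space and does not satisfy `S₁(Γ, Γ)`. (2) Under the continuum hypothesis there is a set of
reals `Z` which is a wQN-space and does not satisfy `S₁(Γ, Γ)`. -/
theorem result :
    (∃ (P : Type) (_ : Preorder P), Nonempty P ∧
      (∀ s : ℕ → P, (∀ n, s (n + 1) ≤ s n) → ∃ q, ∀ n, q ≤ s n) ∧
      ∀ p : P, p ∈ fex fun Y : Type => fex fun E : Y → ℚ → Set P =>
        fand (fall fun y => IsReal (E y)) (fand (IsWQN E) (fnot (IsS1GammaGamma E)))) ∧
    (Cardinal.aleph 1 = Cardinal.continuum.{0} →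
      ∃ Z : Set ℝ, (∀ f : ℕ → C(Z, ℝ),
        (∀ x : Z, Filter.Tendsto (fun n => f n x) Filter.atTop (nhds 0)) →
        ∃ φ : ℕ → ℕ, StrictMono φ ∧ ∃ ε : ℕ → ℝ, (∀ n, 0 < ε n) ∧
          Filter.Tendsto ε Filter.atTop (nhds 0) ∧
          ∀ x : Z, ∀ᶠ n in Filter.atTop, |f (φ n) x| < ε n) ∧
      ¬ ∀ 𝒰 : ℕ → Set (Set Z),
        (∀ n, (∀ U ∈ 𝒰 n, IsOpen U) ∧ (𝒰 n).Infinite ∧ Set.univ ∉ 𝒰 n ∧
          ∀ x : Z, Set.Finite {U | U ∈ 𝒰 n ∧ x ∉ U}) →
        ∃ U : ℕ → Set Z, (∀ n, U n ∈ 𝒰 n) ∧ (Set.range U).Infinite ∧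
          ∀ x : Z, Set.Finite {V | V ∈ Set.range U ∧ x ∉ V}) :=
  ⟨⟨Run7.h953.PP, inferInstance, inferInstance, Run7.h953.sigmaClosed_PP,
    Run7.h953.conjectureFails⟩, Run7.h953.main_CH⟩

end Run7.h953.ConsistentlyFails
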