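import Pool.Agent.Run7.h953.Sent

set_option autoImplicit false

/-!
# General facts about the forcing relation
-/

namespace Run7.h953.Sent

universe u v

section

variable {P : Type u} [Preorder P]

theorem mem_fex {ι : Sort v} {φ : ι → Set P} {p : P} :
    p ∈ fex φ ↔ ∀ q ≤ p, ∃ r ≤ q, ∃ i, r ∈ φ i := by
  simp only [fex, fnot, fall, Set.mem_ofPred_eq, not_forall, not_not]
  constructor
  · intro h q hq
    obtain ⟨i, r, hr, h'⟩ := h q hq
    exact ⟨r, hr, i, h'⟩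
  · intro h q hq
    obtain ⟨r, hr, i, h'⟩ := h q hq
    exact ⟨i, r, hr, h'⟩

theorem mem_fimp {φ ψ : Set P} {p : P} :
    p ∈ fimp φ ψ ↔ ∀ q ≤ p, q ∈ φ → ∃ r ≤ q, r ∈ ψ := by
  simp only [fimp, fnot, fand, Set.mem_ofPred_eq, not_and, not_forall, not_not]
  constructor
  · intro h q hq h'
    obtain ⟨r, hr, h''⟩ := h q hq h'
    exact ⟨r, hr, h''⟩
  · intro h q hq h'
    obtain ⟨r, hr, h''⟩ := h q hq h'
    exact ⟨r, hr, h''⟩

/-- closed downwards -/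
def Down (φ : Set P) : Prop := ∀ p ∈ φ, ∀ q ≤ p, q ∈ φ

/-- closed downwards, and true when it is true densely below -/
structure Reg (φ : Set P) : Prop where
  down : Down φ
  dense : ∀ p, (∀ q ≤ p, ∃ r ≤ q, r ∈ φ) → p ∈ φ

theorem down_fnot (φ : Set P) : Down (fnot φ) :=
  fun _ hp _ hq r hr => hp r (hr.trans hq)

theorem down_fand {φ ψ : Set P} (h : Down φ) (h' : Down ψ) : Down (fand φ ψ) :=
  fun _ hp _ hq => ⟨h _ hp.1 _ hq, h' _ hp.2 _ hq⟩

theorem down_fall {ι : Sort v} {φ : ι → Set P} (h : ∀ i, Down (φ i)) : Down (fall φ) :=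
  fun _ hp _ hq i => h i _ (hp i) _ hq

theorem reg_fnot {φ : Set P} (h : Down φ) : Reg (fnot φ) :=
  ⟨down_fnot _, fun p hd q hq hqφ => by
    obtain ⟨r, hr, hrn⟩ := hd q hq
    exact hrn r le_rfl (h q hqφ r hr)⟩

theorem reg_fand {φ ψ : Set P} (h : Reg φ) (h' : Reg ψ) : Reg (fand φ ψ) :=
  ⟨down_fand h.down h'.down, fun p hd =>
    ⟨h.dense p fun q hq => by
      obtain ⟨r, hr, h1⟩ := hd q hq
      exact ⟨r, hr, h1.1⟩, h'.dense p fun q hq => by
      obtain ⟨r, hr, h1⟩ := hd q hq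
      exact ⟨r, hr, h1.2⟩⟩⟩

theorem reg_fall {ι : Sort v} {φ : ι → Set P} (h : ∀ i, Reg (φ i)) : Reg (fall φ) :=
  ⟨down_fall fun i => (h i).down, fun p hd i => (h i).dense p fun q hq => by
    obtain ⟨r, hr, h1⟩ := hd q hq
    exact ⟨r, hr, h1 i⟩⟩

theorem reg_fground (h : Prop) : Reg (fground (P := P) h) :=
  ⟨fun _ hp _ _ => hp, fun p hd => by
    obtain ⟨r, _, h1⟩ := hd p le_rfl
    exact h1⟩

theorem reg_meets (N : Set P) : Reg (meets N) :=
  ⟨fun _ hp _ hq r hr => hp r (hr.trans hq), fun p hd q hq => by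
    obtain ⟨r, hr, h1⟩ := hd q hq
    obtain ⟨s, hs, t, ht, hst⟩ := h1 r le_rfl
    exact ⟨s, hs.trans hr, t, ht, hst⟩⟩

theorem reg_fex {ι : Sort v} (φ : ι → Set P) : Reg (fex φ) :=
  reg_fnot (down_fall fun i => down_fnot (φ i))

theorem reg_fimp {φ : Set P} (h : Down φ) (ψ : Set P) : Reg (fimp φ ψ) :=
  reg_fnot (down_fand h (down_fnot ψ))

theorem fimp_intro {φ ψ : Set P} {p : P} (h : ∀ q ≤ p, q ∈ φ → q ∈ ψ) : p ∈ fimp φ ψ :=
  mem_fimp.2 fun q hq h' => ⟨q, le_rfl, h q hq h'⟩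

theorem fimp_elim {φ ψ : Set P} (hφ : Down φ) (hψ : Reg ψ) {p q : P} (h : p ∈ fimp φ ψ)
    (hq : q ≤ p) (h' : q ∈ φ) : q ∈ ψ :=
  hψ.dense q fun r hr => mem_fimp.1 h r (hr.trans hq) (hφ q h' r hr)

theorem fex_intro {ι : Sort v} {φ : ι → Set P} {p : P} (i : ι) (hd : Down (φ i))
    (h : p ∈ φ i) : p ∈ fex φ :=
  mem_fex.2 fun q hq => ⟨q, le_rfl, i, hd _ h _ hq⟩

theorem meets_of_mem {N : Set P} {p : P} (h : p ∈ N) : p ∈ meets N :=
  fun q hq => ⟨q, le_rfl, p, h, hq⟩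

/-- `P` is `σ`-closed -/
def SigmaClosed (P : Type u) [Preorder P] : Prop :=
  ∀ s : ℕ → P, (∀ n, s (n + 1) ≤ s n) → ∃ q, ∀ n, q ≤ s n

/-- in a `σ`-closed poset countably many dense requirements can be met at once -/
theorem meet_countable (hP : SigmaClosed P) {ι : Type} [Countable ι] (D : ι → Set P)
    (hD : ∀ n, Down (D n)) (p : P) (hd : ∀ n, ∀ r ≤ p, ∃ q ≤ r, q ∈ D n) :
    ∃ q ≤ p, ∀ n, q ∈ D n := by
  rcases isEmpty_or_nonempty ι with h | h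
  · exact ⟨p, le_rfl, fun n => (h.false n).elim⟩
  obtain ⟨g, hg⟩ := exists_surjective_nat ι
  choose f hf hf' using hd
  let s : ℕ → {r : P // r ≤ p} := fun n => Nat.rec ⟨p, le_rfl⟩
    (fun k r => ⟨f (g k) r.1 r.2, (hf (g k) r.1 r.2).trans r.2⟩) n
  have h1 : ∀ n, (s (n + 1)).1 ≤ (s n).1 := fun n => hf (g n) (s n).1 (s n).2
  obtain ⟨q, hq⟩ := hP (fun n => (s n).1) h1
  refine ⟨q, hq 0, fun n => ?_⟩
  obtain ⟨m, rfl⟩ := hg n
  exact hD _ _ (hf' (g m) (s m).1 (s m).2) _ (hq (m + 1))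

theorem decide_countable (hP : SigmaClosed P) {ι : Type} [Countable ι] (φ : ι → Set P)
    (hφ : ∀ n, Down (φ n)) (p : P) : ∃ q ≤ p, ∀ n, q ∈ φ n ∨ q ∈ fnot (φ n) := by
  refine meet_countable hP (fun n => {q | q ∈ φ n ∨ q ∈ fnot (φ n)}) ?_ p ?_
  · intro n r hr t ht
    rcases hr with hr | hr
    · exact Or.inl (hφ _ _ hr _ ht)
    · exact Or.inr (down_fnot _ _ hr _ ht)
  · intro n r _
    by_cases h2 : ∃ t ≤ r, t ∈ φ n
    · obtain ⟨t, ht, h3⟩ := h2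
      exact ⟨t, ht, Or.inl h3⟩
    · exact ⟨r, le_rfl, Or.inr fun t ht h3 => h2 ⟨t, ht, h3⟩⟩

/-! ### Real numbers -/

/-- Below `p` the name `x` stands for the ground model real number `z`. -/
def IsVal (p : P) (x : ℚ → Set P) (z : ℝ) : Prop := ∀ r ≤ p, ∀ c : ℚ, r ∈ meets (x c) ↔ (c : ℝ) < z

theorem IsVal.mono {p q : P} {x : ℚ → Set P} {z : ℝ} (h : IsVal p x z) (hq : q ≤ p) :
    IsVal q x z := fun r hr => h r (hr.trans hq)

theorem reg_InIoo (x : ℚ → Set P) (a b : ℚ) : Reg (InIoo x a b) :=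
  reg_fand (reg_meets _) (reg_fex _)

theorem IsVal.inIoo {p : P} {x : ℚ → Set P} {z : ℝ} (h : IsVal p x z) {a b : ℚ} :
    p ∈ InIoo x a b ↔ (a : ℝ) < z ∧ z < b := by
  constructor
  · rintro ⟨h1, h2⟩
    refine ⟨(h p le_rfl a).1 h1, ?_⟩
    obtain ⟨r, hr, c, hc, hn⟩ := mem_fex.1 h2 p le_rfl
    have hc' : c < b := hc
    have h3 : ¬ (c : ℝ) < z := fun h4 => hn r le_rfl ((h r hr c).2 h4)
    exact (not_lt.1 h3).trans_lt (by exact_mod_cast hc')
  · rintro ⟨h1, h2⟩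
    refine ⟨(h p le_rfl a).2 h1, ?_⟩
    obtain ⟨c, hc1, hc2⟩ := exists_rat_btwn h2
    refine fex_intro c (reg_fand (reg_fground _) (reg_fnot (reg_meets _).down)).down ?_
    refine ⟨show c < b by exact_mod_cast hc2, fun r hr hrc => ?_⟩
    have := (h r hr c).1 hrc
    linarith

theorem IsVal.isReal {p : P} {x : ℚ → Set P} {z : ℝ} (h : IsVal p x z) : p ∈ IsReal x := by
  refine ⟨⟨?_, ?_⟩, ?_, ?_⟩
  · obtain ⟨a, ha⟩ := exists_rat_lt z
    exact fex_intro a (reg_meets _).down ((h p le_rfl a).2 ha)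
  · obtain ⟨a, ha⟩ := exists_rat_gt z
    exact fex_intro a (down_fnot _) fun r hr hra => by
      have := (h r hr a).1 hra
      linarith
  · intro a b hab
    refine fimp_intro fun q hq hqa => (h q hq b).2 ?_
    have h1 := (h q hq a).1 hqa
    have h2 : (b : ℝ) < a := by exact_mod_cast hab
    linarith
  · intro a
    refine fimp_intro fun q hq hqa => ?_
    obtain ⟨b, hb1, hb2⟩ := exists_rat_btwn ((h q hq a).1 hqa)
    refine fex_intro b (reg_fand (reg_fground _) (reg_meets _)).down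
      ⟨show a < b by exact_mod_cast hb1, (h q hq b).2 hb2⟩

theorem reg_IsReal (x : ℚ → Set P) : Reg (IsReal x) :=
  reg_fand (reg_fand (reg_fex _) (reg_fex _)) (reg_fand (reg_fall fun _ => reg_fall fun _ =>
    reg_fall fun _ => reg_fimp (reg_meets _).down _)
    (reg_fall fun _ => reg_fimp (reg_meets _).down _))

/-- In a `σ`-closed poset every real number of the extension is in the ground model. -/
theorem exists_val (hP : SigmaClosed P) {p : P} {x : ℚ → Set P} (hx : p ∈ IsReal x) :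
    ∃ q ≤ p, ∃ z : ℝ, IsVal q x z := by
  obtain ⟨q, hq, hdec⟩ := decide_countable hP (fun c : ℚ => meets (x c))
    (fun c => (reg_meets _).down) p
  have hxq := (reg_IsReal x).down p hx q hq
  let D : Set ℚ := {c | q ∈ meets (x c)}
  have hD : ∀ c, c ∈ D ↔ q ∈ meets (x c) := fun c => Iff.rfl
  have hDr : ∀ r ≤ q, ∀ c, r ∈ meets (x c) ↔ c ∈ D := by
    intro r hr c
    constructor
    · intro h
      rcases hdec c with h1 | h1
      · exact h1
      · exact absurd h (h1 r hr)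
    · exact fun h => (reg_meets _).down q h r hr
  obtain ⟨⟨h1, h2⟩, h3, h4⟩ := hxq
  obtain ⟨r1, hr1, a0, ha0⟩ := mem_fex.1 h1 q le_rfl
  have ha0' : a0 ∈ D := (hDr r1 hr1 a0).1 ha0
  obtain ⟨r2, hr2, b0, hb0⟩ := mem_fex.1 h2 q le_rfl
  have hb0' : b0 ∉ D := fun h => hb0 r2 le_rfl ((hDr r2 hr2 b0).2 h)
  have hdown : ∀ a ∈ D, ∀ b, b < a → b ∈ D := fun a ha b hb =>
    fimp_elim (reg_meets _).down (reg_meets _) (h3 a b hb) le_rfl ha
  have hmax : ∀ a ∈ D, ∃ b ∈ D, a < b := by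
    intro a ha
    obtain ⟨r, hr, b, hb, hb'⟩ := mem_fex.1
      (fimp_elim (reg_meets _).down (reg_fex _) (h4 a) le_rfl ha) q le_rfl
    exact ⟨b, (hDr r hr b).1 hb', hb⟩
  have hub : ∀ a ∈ D, a ≤ b0 := fun a ha => not_lt.1 fun h => hb0' (hdown a ha b0 h)
  have hbdd : BddAbove ((fun c : ℚ => (c : ℝ)) '' D) := ⟨(b0 : ℝ), by
    rintro _ ⟨a, ha, rfl⟩
    show (a : ℝ) ≤ b0
    exact_mod_cast hub a ha⟩
  refine ⟨q, hq, sSup ((fun c : ℚ => (c : ℝ)) '' D), fun r hr c => ?_⟩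
  rw [hDr r hr]
  constructor
  · intro hc
    obtain ⟨b, hb, hcb⟩ := hmax c hc
    have h5 : (b : ℝ) ≤ sSup ((fun c : ℚ => (c : ℝ)) '' D) := le_csSup hbdd ⟨b, hb, rfl⟩
    have h6 : (c : ℝ) < b := by exact_mod_cast hcb
    linarith
  · intro hc
    have hne : ((fun c : ℚ => (c : ℝ)) '' D).Nonempty := ⟨_, a0, ha0', rfl⟩
    obtain ⟨_, ⟨a, ha, rfl⟩, hca⟩ := exists_lt_of_lt_csSup hne hc
    have hca' : (c : ℝ) < a := hca
    exact hdown a ha c (by exact_mod_cast hca')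

/-- The name of a ground model open set of reals. -/
def openName (G : Set ℝ) : ℚ × ℚ → Set P := fun J => {_p | Set.Ioo (J.1 : ℝ) J.2 ⊆ G}

theorem IsVal.inOpen {p : P} {x : ℚ → Set P} {z : ℝ} (h : IsVal p x z) {G : Set ℝ}
    (hG : IsOpen G) : p ∈ InOpen x (openName G) ↔ z ∈ G := by
  constructor
  · intro h1
    obtain ⟨r, hr, J, hJ1, hJ2⟩ := mem_fex.1 h1 p le_rfl
    obtain ⟨_, _, s, hs, _⟩ := hJ1 r le_rfl
    exact hs ((h.mono hr).inIoo.1 hJ2)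
  · intro hz
    obtain ⟨ε, hε, hεG⟩ := Metric.isOpen_iff.1 hG z hz
    obtain ⟨a, ha1, ha2⟩ := exists_rat_btwn (show z - ε < z by linarith)
    obtain ⟨b, hb1, hb2⟩ := exists_rat_btwn (show z < z + ε by linarith)
    refine fex_intro (a, b) (reg_fand (reg_meets _) (reg_InIoo _ _ _)).down
      ⟨meets_of_mem ?_, h.inIoo.2 ⟨ha2, hb1⟩⟩
    show Set.Ioo (a : ℝ) b ⊆ G
    refine Set.Subset.trans (fun w hw => ?_) hεG
    rw [Metric.mem_ball, Real.dist_eq, abs_lt]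
    constructor <;> linarith [hw.1, hw.2]

theorem reg_InOpen (x : ℚ → Set P) (O : ℚ × ℚ → Set P) : Reg (InOpen x O) := reg_fex _

theorem reg_SameTrace {Y : Type} (E : Y → ℚ → Set P) (O O' : ℚ × ℚ → Set P) :
    Reg (SameTrace E O O') :=
  reg_fall fun _ => reg_fand (reg_fimp (reg_InOpen _ _).down _) (reg_fimp (reg_InOpen _ _).down _)

theorem sameTrace_iff {Y : Type} {E : Y → ℚ → Set P} {O O' : ℚ × ℚ → Set P} {p : P} :
    p ∈ SameTrace E O O' ↔ ∀ q ≤ p, ∀ y, q ∈ InOpen (E y) O ↔ q ∈ InOpen (E y) O' := by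
  constructor
  · intro h q hq y
    exact ⟨fimp_elim (reg_InOpen _ _).down (reg_InOpen _ _) (h y).1 hq,
      fimp_elim (reg_InOpen _ _).down (reg_InOpen _ _) (h y).2 hq⟩
  · intro h y
    exact ⟨fimp_intro fun q hq => (h q hq y).1, fimp_intro fun q hq => (h q hq y).2⟩

theorem SameTrace.refl {Y : Type} (E : Y → ℚ → Set P) (O : ℚ × ℚ → Set P) (p : P) :
    p ∈ SameTrace E O O := sameTrace_iff.2 fun _ _ _ => Iff.rfl

theorem SameTrace.symm {Y : Type} {E : Y → ℚ → Set P} {O O' : ℚ × ℚ → Set P} {p : P}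
    (h : p ∈ SameTrace E O O') : p ∈ SameTrace E O' O :=
  sameTrace_iff.2 fun q hq y => (sameTrace_iff.1 h q hq y).symm

theorem SameTrace.trans {Y : Type} {E : Y → ℚ → Set P} {O O' O'' : ℚ × ℚ → Set P} {p : P}
    (h : p ∈ SameTrace E O O') (h' : p ∈ SameTrace E O' O'') : p ∈ SameTrace E O O'' :=
  sameTrace_iff.2 fun q hq y => (sameTrace_iff.1 h q hq y).trans (sameTrace_iff.1 h' q hq y)

end

end Run7.h953.Sent
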