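import Pool.Agent.Run7.h953.Step

set_option autoImplicit false

/-!
# Fusion and the selection lemma
-/

namespace Run7.h953

open Set Topology Filter

/-- `F'` extends the finite set `F` of promises by the `n`-th instances of what goodness requires. -/
structure Ext (F F' : Finset (Node × ℕ × ℕ)) (n : ℕ) : Prop where
  sub : F ⊆ F'
  prom : ∀ f ∈ F, ∃ p q, n ≤ p ∧ (f.1, p, q) ∈ F'
  full : ∀ f ∈ F, f.1.b = false → (f.1, 0, f.1.m + 1) ∈ F'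
  cont : ∀ f ∈ F, ∀ m, m ≤ n → f.2.2 ≤ m →
    ∃ g ∈ F', C f.1 g.1 ∧ g.1.m = m ∧ pt g.1 ∈ nb (pt f.1) f.2.1
  open' : ∀ f ∈ F, f.1.b = true → ∃ d, n ≤ d ∧ ∃ g ∈ F', g.1 = mk f.1 d

theorem Ext.mono {F F' : Finset (Node × ℕ × ℕ)} {n n' : ℕ} (h : Ext F F' n) (hn : n' ≤ n) :
    Ext F F' n' :=
  ⟨h.sub, fun f hf => by
    obtain ⟨p, q, h1, h2⟩ := h.prom f hf
    exact ⟨p, q, hn.trans h1, h2⟩, h.full, fun f hf m hm hq => h.cont f hf m (hm.trans hn) hq,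
    fun f hf hb => by
      obtain ⟨d, h1, h2⟩ := h.open' f hf hb
      exact ⟨d, hn.trans h1, h2⟩⟩

theorem exists_ext {A : Set Node} (hA : Good A) (F : Finset (Node × ℕ × ℕ))
    (hF : ∀ f ∈ F, Prom A f) (n : ℕ) :
    ∃ F' : Finset (Node × ℕ × ℕ), Ext F F' n ∧ ∀ f ∈ F', Prom A f := by
  classical
  have h1 : ∀ f : {f // f ∈ F}, ∃ q, Prom A (f.1.1, n, q) := fun f => hA.prom _ (hF _ f.2).1 n
  choose q1 hq1 using h1
  have h2 : ∀ f : {f // f ∈ F}, ∀ m : ℕ, ∃ g : Node × ℕ × ℕ, Prom A g ∧ (f.1.2.2 ≤ m →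
      C f.1.1 g.1 ∧ g.1.m = m ∧ pt g.1 ∈ nb (pt f.1.1) f.1.2.1) := by
    intro f m
    by_cases hm : f.1.2.2 ≤ m
    · obtain ⟨c, hc, h1, h2, h3⟩ := (hF _ f.2).2 m hm
      obtain ⟨q, hq⟩ := hA.prom c hc 0
      exact ⟨(c, 0, q), hq, fun _ => ⟨h1, h2, h3⟩⟩
    · exact ⟨f.1, hF _ f.2, fun h => absurd h hm⟩
  choose g2 hg2 hg2' using h2
  have h3 : ∀ f : {f // f ∈ F}, ∃ g : Node × ℕ × ℕ, Prom A g ∧ (f.1.1.b = true →
      ∃ d, n ≤ d ∧ g.1 = mk f.1.1 d) := by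
    intro f
    by_cases hb : f.1.1.b = true
    · obtain ⟨d, hd, hdA⟩ := hA.open' _ (hF _ f.2).1 hb n
      obtain ⟨q, hq⟩ := hA.prom _ hdA 0
      exact ⟨_, hq, fun _ => ⟨d, hd, rfl⟩⟩
    · exact ⟨f.1, hF _ f.2, fun h => absurd h hb⟩
  choose g3 hg3 hg3' using h3
  let F' : Finset (Node × ℕ × ℕ) := F ∪ (F.attach.image fun f => (f.1.1, n, q1 f)) ∪
    ((F.attach ×ˢ Finset.range (n + 1)).image fun z => g2 z.1 z.2) ∪ (F.attach.image g3) ∪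
    ((F.filter fun f => f.1.b = false).image fun f => (f.1, 0, f.1.m + 1))
  have hF' : ∀ g, g ∈ F' ↔ (g ∈ F ∨ (∃ f : {f // f ∈ F}, (f.1.1, n, q1 f) = g) ∨
      (∃ f : {f // f ∈ F}, ∃ m, m < n + 1 ∧ g2 f m = g) ∨ (∃ f : {f // f ∈ F}, g3 f = g) ∨
      ∃ f ∈ F, f.1.b = false ∧ (f.1, 0, f.1.m + 1) = g) := by
    intro g
    simp only [F', Finset.mem_union, Finset.mem_image, Finset.mem_attach, true_and,
      Finset.mem_product, Finset.mem_range, Prod.exists, Finset.mem_filter]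
    constructor
    · rintro ((((h | h) | ⟨f, m, h, h'⟩) | h) | ⟨a, b, c, h, h'⟩)
      · exact Or.inl h
      · exact Or.inr (Or.inl h)
      · exact Or.inr (Or.inr (Or.inl ⟨f, m, h, h'⟩))
      · exact Or.inr (Or.inr (Or.inr (Or.inl h)))
      · exact Or.inr (Or.inr (Or.inr (Or.inr ⟨a, b, c, h.1, h.2, h'⟩)))
    · rintro (h | h | ⟨f, m, h, h'⟩ | h | ⟨a, b, c, h, h1, h'⟩)
      · exact Or.inl (Or.inl (Or.inl (Or.inl h)))
      · exact Or.inl (Or.inl (Or.inl (Or.inr h)))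
      · exact Or.inl (Or.inl (Or.inr ⟨f, m, h, h'⟩))
      · exact Or.inl (Or.inr h)
      · exact Or.inr ⟨a, b, c, ⟨h, h1⟩, h'⟩
  refine ⟨F', ⟨fun f hf => (hF' f).2 (Or.inl hf), fun f hf => ⟨n, q1 ⟨f, hf⟩, le_rfl,
    (hF' _).2 (Or.inr (Or.inl ⟨⟨f, hf⟩, rfl⟩))⟩, fun f hf hb =>
    (hF' _).2 (Or.inr (Or.inr (Or.inr (Or.inr ⟨f, hf, hb, rfl⟩)))), fun f hf m hm hq =>
    ⟨g2 ⟨f, hf⟩ m, (hF' _).2 (Or.inr (Or.inr (Or.inl ⟨⟨f, hf⟩, m, by omega, rfl⟩))),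
      hg2' ⟨f, hf⟩ m hq⟩, fun f hf hb => ?_⟩, fun g hg => ?_⟩
  · obtain ⟨d, hd, hgd⟩ := hg3' ⟨f, hf⟩ hb
    exact ⟨d, hd, g3 ⟨f, hf⟩, (hF' _).2 (Or.inr (Or.inr (Or.inr (Or.inl ⟨⟨f, hf⟩, rfl⟩)))), hgd⟩
  · rcases (hF' g).1 hg with h | ⟨f, rfl⟩ | ⟨f, m, -, rfl⟩ | ⟨f, rfl⟩ | ⟨f, hf, hb, rfl⟩
    · exact hF g h
    · exact hq1 f
    · exact hg2 f m
    · exact hg3 f
    · exact hA.full _ (hF f hf).1 hb

/-- The fusion lemma. -/
theorem fusion {A : ℕ → Set Node} {F : ℕ → Finset (Node × ℕ × ℕ)} (hA : ∀ n, A (n + 1) ⊆ A n)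
    (hF : ∀ n, ∀ f ∈ F n, Prom (A n) f) (hne : (F 0).Nonempty)
    (hE : ∀ n, Ext (F n) (F (n + 1)) n) :
    ∃ B : Set Node, Good B ∧ (∀ n, ∀ f ∈ F n, Prom B f) ∧ ∀ n, B ⊆ A n := by
  let B : Set Node := {s | ∃ n, ∃ f ∈ F n, f.1 = s}
  have hAm : ∀ m n, m ≤ n → A n ⊆ A m := fun m n h =>
    antitone_nat_of_succ_le (f := A) hA h
  have hFm : ∀ m n, m ≤ n → F m ⊆ F n := fun m n h =>
    monotone_nat_of_le_succ (f := F) (fun n => (hE n).sub) h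
  have hFB : ∀ n, ∀ f ∈ F n, Prom B f := by
    intro n f hf
    refine ⟨⟨n, f, hf, rfl⟩, fun m hm => ?_⟩
    obtain ⟨g, hg, h1, h2, h3⟩ := (hE (max n m)).cont f (hFm _ _ (le_max_left _ _) hf) m
      (le_max_right _ _) hm
    exact ⟨g.1, ⟨_, g, hg, rfl⟩, h1, h2, h3⟩
  refine ⟨B, ⟨?_, ?_, ?_, ?_⟩, hFB, ?_⟩
  · obtain ⟨f, hf⟩ := hne
    exact ⟨f.1, 0, f, hf, rfl⟩
  · rintro s ⟨n, f, hf, rfl⟩ p
    obtain ⟨p', q, hp, hq⟩ := (hE (max n p)).prom f (hFm _ _ (le_max_left _ _) hf)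
    obtain ⟨h1, h2⟩ := hFB _ _ hq
    refine ⟨q, h1, fun m hm => ?_⟩
    obtain ⟨c, hc, h3, h4, h5⟩ := h2 m hm
    exact ⟨c, hc, h3, h4, nb_anti _ ((le_max_right _ _).trans hp) h5⟩
  · rintro s ⟨n, f, hf, rfl⟩ hb
    exact hFB _ _ ((hE n).full f hf hb)
  · rintro s ⟨n, f, hf, rfl⟩ hb k
    obtain ⟨d, hd, g, hg, hgd⟩ := (hE (max n k)).open' f (hFm _ _ (le_max_left _ _) hf) hb
    exact ⟨d, (le_max_right _ _).trans hd, _, g, hg, hgd⟩
  · rintro n s ⟨k, f, hf, rfl⟩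
    have h1 := (hF _ f (hFm _ _ (le_max_right n k) hf)).1
    exact hAm _ _ (le_max_left n k) h1

/-- A good set with a nonempty finite set of promises. -/
structure St where
  /-- the good set -/
  A : Set Node
  /-- the promises -/
  F : Finset (Node × ℕ × ℕ)
  good : Good A
  ne : F.Nonempty
  prom : ∀ f ∈ F, Prom A f

/-- The points of the closure of `A` are covered in the right way by `P` and `Q`. -/
def Fine (P Q : ℕ → Set K) (x : K) : Prop := (∀ m, x ∈ P m ∪ Q m) ∧ {m | x ∈ P m}.Finite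

theorem one_step' {P Q : ℕ → Set K} (hP : ∀ m, IsOpen (P m)) (hQ : ∀ m, IsOpen (Q m)) (S : St)
    (hcl : ∀ x ∈ closure (pt '' S.A), Fine P Q x) (n : ℕ) :
    ∃ m0, ∀ m, m0 ≤ m → ∃ S' : St, S'.A ⊆ S.A ∧ Ext S.F S'.F n ∧ closure (pt '' S'.A) ⊆ Q m := by
  obtain ⟨F', hE, hF'⟩ := exists_ext S.good S.F S.prom n
  have hne : F'.Nonempty := S.ne.mono hE.sub
  obtain ⟨m0, hm0⟩ := one_step S.good hP hQ hcl F' hne hF'
  refine ⟨m0, fun m hm => ?_⟩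
  obtain ⟨A', h1, h2, h3, h4⟩ := hm0 m hm
  exact ⟨⟨A', F', h2, hne, h3⟩, h1, hE, h4⟩

/-- The selection lemma. -/
theorem selection {P Q : ℕ → ℕ → Set K} (hP : ∀ k m, IsOpen (P k m)) (hQ : ∀ k m, IsOpen (Q k m))
    (S : ℕ → St) (hcl : ∀ k j, ∀ x ∈ closure (pt '' (S j).A), Fine (P k) (Q k) x)
    (y : ℕ → K) (hy : ∀ k j, ∀ᶠ m in atTop, y j ∈ Q k m) :
    ∃ μ : ℕ → ℕ, StrictMono μ ∧ (∀ j, ∀ᶠ k in atTop, y j ∈ Q k (μ k)) ∧
      ∀ j, ∃ B ⊆ (S j).A, Good B ∧ (∀ f ∈ (S j).F, Prom B f) ∧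
        ∀ k, j ≤ k → closure (pt '' B) ⊆ Q k (μ k) := by
  classical
  -- one step for all `j ≤ k`
  have step : ∀ (k N : ℕ) (T : ℕ → St), (∀ j, (T j).A ⊆ (S j).A) →
      ∃ (m : ℕ) (T' : ℕ → St), N < m ∧ (∀ j, (T' j).A ⊆ (T j).A) ∧ (∀ j, j ≤ k → y j ∈ Q k m) ∧
        (∀ j, j ≤ k → Ext (T j).F (T' j).F k ∧ closure (pt '' (T' j).A) ⊆ Q k m) ∧
        ∀ j, k < j → T' j = T j := by
    intro k N T hT
    have h1 : ∀ j, ∃ m0, ∀ m, m0 ≤ m → ∃ S' : St, S'.A ⊆ (T j).A ∧ Ext (T j).F S'.F k ∧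
        closure (pt '' S'.A) ⊆ Q k m := fun j =>
      one_step' (hP k) (hQ k) (T j)
        (fun x hx => hcl k j x (closure_mono (image_mono (hT j)) hx)) k
    choose m0 hm0 using h1
    have h2 : ∀ᶠ m in atTop, ∀ j ∈ Finset.range (k + 1), y j ∈ Q k m ∧ m0 j ≤ m := by
      rw [Filter.eventually_all_finset]
      exact fun j _ => (hy k j).and (eventually_ge_atTop _)
    obtain ⟨m, hm1, hm2⟩ := (h2.and (eventually_gt_atTop N)).exists
    have hm1' : ∀ j, j ≤ k → y j ∈ Q k m ∧ m0 j ≤ m := fun j hj =>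
      hm1 j (Finset.mem_range.2 (by omega))
    have : Nonempty St := ⟨S 0⟩
    choose! S' hS' using fun j (hj : j ≤ k) => hm0 j m (hm1' j hj).2
    refine ⟨m, fun j => if j ≤ k then S' j else T j, hm2, fun j => ?_, fun j hj => (hm1' j hj).1,
      fun j hj => ?_, fun j hj => ?_⟩
    · by_cases hj : j ≤ k
      · simp only [hj, if_true]
        exact (hS' j hj).1
      · simp only [hj, if_false]
        exact Subset.rfl
    · simp only [hj, if_true]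
      exact (hS' j hj).2
    · have hj' : ¬ j ≤ k := by omega
      simp only [hj', if_false]
  -- the recursion
  choose m' T' hm' hT' hy' hE' hTeq using step
  let R : ℕ → {z : ℕ × (ℕ → St) // ∀ j, (z.2 j).A ⊆ (S j).A} := fun k =>
    Nat.rec ⟨(0, S), fun _ => Subset.rfl⟩ (fun k z => ⟨(m' k z.1.1 z.1.2 z.2, T' k z.1.1 z.1.2 z.2),
      fun j => (hT' k z.1.1 z.1.2 z.2 j).trans (z.2 j)⟩) k
  have hR : ∀ k, (R (k + 1)).1 = (m' k (R k).1.1 (R k).1.2 (R k).2,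
      T' k (R k).1.1 (R k).1.2 (R k).2) := fun k => rfl
  let μ : ℕ → ℕ := fun k => (R (k + 1)).1.1
  let T : ℕ → ℕ → St := fun k => (R k).1.2
  have hμ0 : ∀ k, (R k).1.1 < (R (k + 1)).1.1 := fun k => by
    rw [hR k]
    exact hm' _ _ _ _
  have hTA : ∀ k j, (T (k + 1) j).A ⊆ (T k j).A := fun k j => by
    change ((R (k + 1)).1.2 j).A ⊆ _
    rw [hR k]
    exact hT' _ _ _ _ j
  have hTE : ∀ k j, j ≤ k → Ext (T k j).F (T (k + 1) j).F k := fun k j hj => by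
    change Ext _ ((R (k + 1)).1.2 j).F k
    rw [hR k]
    exact (hE' _ _ _ _ j hj).1
  have hTQ : ∀ k j, j ≤ k → closure (pt '' (T (k + 1) j).A) ⊆ Q k (μ k) := fun k j hj => by
    change closure (pt '' ((R (k + 1)).1.2 j).A) ⊆ Q k ((R (k + 1)).1.1)
    rw [hR k]
    exact (hE' _ _ _ _ j hj).2
  have hTy : ∀ k j, j ≤ k → y j ∈ Q k (μ k) := fun k j hj => by
    change _ ∈ Q k ((R (k + 1)).1.1)
    rw [hR k]
    exact hy' _ _ _ _ j hj
  have hTS : ∀ k j, k ≤ j → T k j = S j := by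
    intro k
    induction k with
    | zero => exact fun j _ => rfl
    | succ k ih =>
      intro j hj
      change (R (k + 1)).1.2 j = _
      rw [hR k]
      exact (hTeq _ _ _ _ j (by omega)).trans (ih j (by omega))
  refine ⟨μ, strictMono_nat_of_lt_succ fun k => hμ0 (k + 1), fun j => ?_, fun j => ?_⟩
  · filter_upwards [eventually_ge_atTop j] with k hk
    exact hTy k j hk
  · obtain ⟨B, hB1, hB2, hB3⟩ := fusion (A := fun n => (T (j + n) j).A)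
      (F := fun n => (T (j + n) j).F) (fun n => hTA (j + n) j) (fun n => (T (j + n) j).prom)
      (T (j + 0) j).ne (fun n => (hTE (j + n) j (by omega)).mono (by omega))
    have h0 : T j j = S j := hTS j j le_rfl
    refine ⟨B, ?_, hB1, fun f hf => hB2 0 f ?_, fun k hk => ?_⟩
    · have := hB3 0
      simp only [add_zero] at this
      rwa [h0] at this
    · rw [add_zero, h0]
      exact hf
    · have h1 : B ⊆ (T (k + 1) j).A := by
        have := hB3 (k + 1 - j)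
        rwa [show j + (k + 1 - j) = k + 1 by omega] at this
      exact (closure_mono (image_mono h1)).trans (hTQ k j hk)

end Run7.h953
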