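import Pool.Agent.Run7.h953.Chain

set_option autoImplicit false

/-!
# From subsets of `K` to sets of reals
-/

namespace Run7.h953

open Set Topology Filter

/-- One-point elements of `K`. -/
def single (d m : ℕ) : K := fun z => decide (z = (d, m))

theorem single_mem_V {d m d' m' : ℕ} : single d m ∈ V d' m' ↔ d = d' ∧ m = m' := by
  constructor
  · rintro ⟨h, -⟩
    simp only [single, decide_eq_true_eq, Prod.mk.injEq] at h
    exact ⟨h.1.symm, h.2.symm⟩
  · rintro ⟨rfl, rfl⟩
    refine ⟨by simp [single], fun m' hm' => ?_⟩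
    simp only [single, decide_eq_false_iff_not, Prod.mk.injEq, true_and]
    omega

theorem single_inj {d m d' m' : ℕ} (h : single d m = single d' m') : d = d' ∧ m = m' := by
  have h1 : single d m ∈ V d m := single_mem_V.2 ⟨rfl, rfl⟩
  rw [h, single_mem_V] at h1
  exact ⟨h1.1.symm, h1.2.symm⟩

/-- The properties of a subset of `K` (given as an embedded space) which make it a counterexample. -/
theorem main_space {Y : Type*} [TopologicalSpace Y] {ψ : Y → K} (hψ : IsEmbedding ψ)
    (h1 : ∀ d m, single d m ∈ range ψ)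
    (h2 : ∀ g : ℕ → ℕ, Tendsto g atTop atTop → ∃ x ∈ range ψ, ∃ᶠ d in atTop, x ∈ V d (g d))
    (h3 : ∀ P Q : ℕ → ℕ → Set K, (∀ k m, IsOpen (P k m)) → (∀ k m, IsOpen (Q k m)) →
        (∀ x ∈ range ψ, ∀ k, Fine (P k) (Q k) x) →
        ∃ μ : ℕ → ℕ, StrictMono μ ∧ ∀ x ∈ range ψ, ∀ᶠ k in atTop, x ∈ Q k (μ k)) :
    (∀ f : ℕ → C(Y, ℝ),
      (∀ x : Y, Filter.Tendsto (fun n => f n x) Filter.atTop (nhds 0)) →
      ∃ φ : ℕ → ℕ, StrictMono φ ∧ ∃ ε : ℕ → ℝ, (∀ n, 0 < ε n) ∧
        Filter.Tendsto ε Filter.atTop (nhds 0) ∧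
        ∀ x : Y, ∀ᶠ n in Filter.atTop, |f (φ n) x| < ε n) ∧
    ¬ ∀ 𝒰 : ℕ → Set (Set Y),
      (∀ n, (∀ U ∈ 𝒰 n, IsOpen U) ∧ (𝒰 n).Infinite ∧ Set.univ ∉ 𝒰 n ∧
        ∀ x : Y, Set.Finite {U | U ∈ 𝒰 n ∧ x ∉ U}) →
      ∃ U : ℕ → Set Y, (∀ n, U n ∈ 𝒰 n) ∧ (Set.range U).Infinite ∧
        ∀ x : Y, Set.Finite {V | V ∈ Set.range U ∧ x ∉ V} := by
  constructor
  · intro f hf
    have hP : ∀ k m : ℕ, ∃ O : Set K, IsOpen O ∧ ψ ⁻¹' O = {y | (1 / 2 : ℝ) ^ (k + 1) < |f m y|} :=
      fun k m => isOpen_induced_iff.1 (by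
        rw [← hψ.eq_induced]
        exact isOpen_lt continuous_const (f m).continuous.abs)
    have hQ : ∀ k m : ℕ, ∃ O : Set K, IsOpen O ∧ ψ ⁻¹' O = {y | |f m y| < (1 / 2 : ℝ) ^ k} :=
      fun k m => isOpen_induced_iff.1 (by
        rw [← hψ.eq_induced]
        exact isOpen_lt (f m).continuous.abs continuous_const)
    choose P hPo hP using hP
    choose Q hQo hQ using hQ
    have hmP : ∀ k m y, ψ y ∈ P k m ↔ (1 / 2 : ℝ) ^ (k + 1) < |f m y| := fun k m y =>
      Set.ext_iff.1 (hP k m) y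
    have hmQ : ∀ k m y, ψ y ∈ Q k m ↔ |f m y| < (1 / 2 : ℝ) ^ k := fun k m y =>
      Set.ext_iff.1 (hQ k m) y
    obtain ⟨μ, hμ, hμX⟩ := h3 P Q hPo hQo (by
      rintro _ ⟨y, rfl⟩ k
      refine ⟨fun m => ?_, ?_⟩
      · by_cases h : ψ y ∈ P k m
        · exact Or.inl h
        · right
          rw [hmP, not_lt] at h
          rw [hmQ]
          refine h.trans_lt ?_
          rw [pow_succ]
          have : (0 : ℝ) < (1 / 2) ^ k := by positivity
          linarith
      · have h4 : ∀ᶠ m in atTop, |f m y| < (1 / 2 : ℝ) ^ (k + 1) := by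
          have h5 := (hf y).abs
          rw [abs_zero] at h5
          exact h5.eventually_lt_const (by positivity)
        rw [← Nat.cofinite_eq_atTop, eventually_cofinite] at h4
        refine h4.subset fun m hm => ?_
        have hm' : ψ y ∈ P k m := hm
        rw [hmP] at hm'
        exact not_lt.2 hm'.le)
    refine ⟨μ, hμ, fun k => (1 / 2 : ℝ) ^ k, fun k => by positivity,
      tendsto_pow_atTop_nhds_zero_of_lt_one (by norm_num) (by norm_num), fun y => ?_⟩
    filter_upwards [hμX (ψ y) ⟨y, rfl⟩] with k hk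
    exact (hmQ _ _ _).1 hk
  · intro H
    let U : ℕ → ℕ → Set Y := fun d m => {y | ψ y ∉ V d m ∧ ψ y ≠ single 0 m}
    have hno : ∀ d m y, ψ y = single d m → y ∉ U d m := fun d m y hy h => h.1 (by
      rw [hy]
      exact single_mem_V.2 ⟨rfl, rfl⟩)
    have hinj : ∀ d, Function.Injective (U d) := by
      intro d m m' h
      by_contra hmm
      obtain ⟨y, hy⟩ := h1 d m
      refine hno d m y hy ?_
      rw [h]
      refine ⟨?_, ?_⟩
      · rw [hy, single_mem_V]
        exact fun h => hmm h.2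
      · rw [hy]
        exact fun h => hmm (single_inj h).2
    obtain ⟨W, hW, -, hWf⟩ := H (fun d => range (U d)) (fun d => by
      refine ⟨?_, infinite_range_of_injective (hinj d), ?_, fun y => ?_⟩
      · rintro _ ⟨m, rfl⟩
        have h4 : U d m = ψ ⁻¹' (V d m)ᶜ ∩ ψ ⁻¹' {single 0 m}ᶜ := rfl
        rw [h4]
        exact ((isClosed_V d m).isOpen_compl.preimage hψ.continuous).inter
          (isClosed_singleton.isOpen_compl.preimage hψ.continuous)
      · rintro ⟨m, hm⟩
        obtain ⟨y, hy⟩ := h1 d m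
        exact hno d m y hy (hm ▸ mem_univ y)
      · have h4 : {m | ψ y ∈ V d m}.Finite :=
          Set.Subsingleton.finite fun m hm m' hm' => V_unique hm hm'
        have h5 : {m | ψ y = single 0 m}.Finite :=
          Set.Subsingleton.finite fun m hm m' hm' => (single_inj (hm.symm.trans hm')).2
        refine ((h4.union h5).image (U d)).subset ?_
        rintro _ ⟨⟨m, rfl⟩, hm⟩
        refine ⟨m, ?_, rfl⟩
        by_contra hc
        simp only [mem_union, mem_ofPred_eq, not_or] at hc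
        exact hm hc)
    choose g hg using hW
    have hWinj : Function.Injective W := by
      have key : ∀ d d', W d = W d' → d = d' ∨ d = 0 := by
        intro d d' h
        obtain ⟨y, hy⟩ := h1 d (g d)
        have h4 : y ∉ W d := by
          rw [← hg d]
          exact hno _ _ _ hy
        rw [h, ← hg d'] at h4
        by_contra hc
        push Not at hc
        refine h4 ⟨?_, ?_⟩
        · rw [hy, single_mem_V]
          exact fun h => hc.1 h.1
        · rw [hy]
          exact fun h => hc.2 (single_inj h).1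
      intro d d' h
      rcases key d d' h with h4 | h4
      · exact h4
      · rcases key d' d h.symm with h5 | h5
        · exact h5.symm
        · rw [h4, h5]
    have hfin : ∀ y, {d | y ∉ W d}.Finite := by
      intro y
      refine ((hWf y).preimage hWinj.injOn).subset fun d hd => ?_
      exact ⟨mem_range_self d, hd⟩
    have hginf : Tendsto g atTop atTop := by
      rw [tendsto_atTop]
      intro b
      rw [← Nat.cofinite_eq_atTop, eventually_cofinite]
      have h4 : ∀ m, {d | g d = m}.Finite := by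
        intro m
        obtain ⟨y, hy⟩ := h1 0 m
        refine (hfin y).subset fun d hd => ?_
        have hd' : g d = m := hd
        show y ∉ W d
        rw [← hg d, hd']
        exact fun h => h.2 hy
      refine ((finite_lt_nat b).biUnion fun m _ => h4 m).subset fun d hd => ?_
      have hd' : g d < b := not_le.1 hd
      exact mem_biUnion (show g d ∈ {i | i < b} from hd') rfl
    obtain ⟨_, ⟨y, rfl⟩, hy⟩ := h2 g hginf
    have h6 : ∀ᶠ d in atTop, y ∈ W d := by
      rw [← Nat.cofinite_eq_atTop, eventually_cofinite]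
      exact hfin y
    obtain ⟨d, hd1, hd2⟩ := (hy.and_eventually h6).exists
    rw [← hg d] at hd2
    exact hd2.1 hd1

/-- `K` embeds in the real line. -/
theorem exists_embedding : ∃ e : K → ℝ, IsEmbedding e := by
  let h1 : K ≃ₜ (ℕ → Bool) := Homeomorph.piCongrLeft (Y := fun _ => Bool) Nat.pairEquiv
  let h2 : (ℕ → Bool) ≃ₜ cantorSet := cantorSetHomeomorphNatToBool.symm
  exact ⟨fun x => (h2 (h1 x) : ℝ), IsEmbedding.subtypeVal.comp (h1.trans h2).isEmbedding⟩

/-- For a subset of `K` with the properties, its image in the real line is a counterexample. -/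
theorem main_real {X : Set K} (h1 : ∀ d m, single d m ∈ X)
    (h2 : ∀ g : ℕ → ℕ, Tendsto g atTop atTop → ∃ x ∈ X, ∃ᶠ d in atTop, x ∈ V d (g d))
    (h3 : ∀ P Q : ℕ → ℕ → Set K, (∀ k m, IsOpen (P k m)) → (∀ k m, IsOpen (Q k m)) →
        (∀ x ∈ X, ∀ k, Fine (P k) (Q k) x) →
        ∃ μ : ℕ → ℕ, StrictMono μ ∧ ∀ x ∈ X, ∀ᶠ k in atTop, x ∈ Q k (μ k)) :
    ∃ Z : Set ℝ, (∀ f : ℕ → C(Z, ℝ),
      (∀ x : Z, Filter.Tendsto (fun n => f n x) Filter.atTop (nhds 0)) →
      ∃ φ : ℕ → ℕ, StrictMono φ ∧ ∃ ε : ℕ → ℝ, (∀ n, 0 < ε n) ∧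
        Filter.Tendsto ε Filter.atTop (nhds 0) ∧
        ∀ x : Z, ∀ᶠ n in Filter.atTop, |f (φ n) x| < ε n) ∧
    ¬ ∀ 𝒰 : ℕ → Set (Set Z),
      (∀ n, (∀ U ∈ 𝒰 n, IsOpen U) ∧ (𝒰 n).Infinite ∧ Set.univ ∉ 𝒰 n ∧
        ∀ x : Z, Set.Finite {U | U ∈ 𝒰 n ∧ x ∉ U}) →
      ∃ U : ℕ → Set Z, (∀ n, U n ∈ 𝒰 n) ∧ (Set.range U).Infinite ∧
        ∀ x : Z, Set.Finite {V | V ∈ Set.range U ∧ x ∉ V} := by
  obtain ⟨e, he⟩ := exists_embedding
  let h : X ≃ₜ (e '' X) := he.homeomorphImage X
  have hψ : IsEmbedding fun y : e '' X => ((h.symm y : X) : K) :=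
    IsEmbedding.subtypeVal.comp h.symm.isEmbedding
  have hr : range (fun y : e '' X => ((h.symm y : X) : K)) = X := by
    have : range (fun y : e '' X => ((h.symm y : X) : K)) = range ((↑) : X → K) := by
      rw [show (fun y : e '' X => ((h.symm y : X) : K)) = ((↑) : X → K) ∘ h.symm from rfl,
        EquivLike.range_comp]
    rw [this, Subtype.range_coe]
  refine ⟨e '' X, main_space hψ ?_ ?_ ?_⟩
  · rw [hr]
    exact h1
  · rw [hr]
    exact h2
  · rw [hr]
    exact h3

end Run7.h953
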