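import Pool.Agent.Run7.h953.Forc
import Pool.Agent.Run7.h953.Space

set_option autoImplicit false

/-!
# The generic set of reals
-/

namespace Run7.h953

open Set Topology Filter Sent

/-- The notion of forcing: the conditions which contain all one-point sets. -/
def PP : Type := {p : Cond // ∀ d m, single d m ∈ p.X}

instance : Preorder PP := inferInstanceAs (Preorder {p : Cond // ∀ d m, single d m ∈ p.X})

theorem PP.le_def {p q : PP} : q ≤ p ↔ q.1 ≤ p.1 := Iff.rfl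

instance : Nonempty PP := by
  obtain ⟨p, hp⟩ := exists_start (range fun z : ℕ × ℕ => single z.1 z.2) (countable_range _)
  exact ⟨⟨p, fun d m => hp ▸ ⟨(d, m), rfl⟩⟩⟩

theorem sigmaClosed_PP : SigmaClosed PP := by
  intro s hs
  obtain ⟨q, hq⟩ := sigma_closed (fun n => (s n).1) hs
  exact ⟨⟨q, fun d m => (hq 0).1 ((s 0).2 d m)⟩, hq⟩

theorem PP.mem_mono {p q : PP} (h : q ≤ p) {x : K} (hx : x ∈ p.1.X) : x ∈ q.1.X := h.1 hx

/-- A condition below `p` as an element of `PP`. -/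
theorem PP.lift {p : PP} {q : Cond} (h : q ≤ p.1) : ∃ q' : PP, q' ≤ p ∧ q'.1 = q :=
  ⟨⟨q, fun d m => h.1 (p.2 d m)⟩, h, rfl⟩

variable (e : K → ℝ)

/-- The names of the points of the generic set of reals: `E y` is `e y` if `y` gets into the first
component of some condition of the generic filter, and a fixed point otherwise. -/
def En (y : K) (c : ℚ) : Set PP :=
  {p | (y ∈ p.1.X ∧ (c : ℝ) < e y) ∨ ((∀ r ≤ p, y ∉ r.1.X) ∧ (c : ℝ) < e (single 0 0))}

variable {e}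

theorem isVal_mem {p : PP} {y : K} (hy : y ∈ p.1.X) : IsVal p (En e y) (e y) := by
  intro r hr c
  have hyr : y ∈ r.1.X := PP.mem_mono hr hy
  constructor
  · intro h
    obtain ⟨t, ht, s, hs, hts⟩ := h r le_rfl
    rcases hs with ⟨_, hs⟩ | ⟨hs, _⟩
    · exact hs
    · exact absurd (PP.mem_mono ht hyr) (hs t hts)
  · exact fun h => meets_of_mem (Or.inl ⟨hyr, h⟩)

theorem isVal_not {p : PP} {y : K} (hy : ∀ r ≤ p, y ∉ r.1.X) :
    IsVal p (En e y) (e (single 0 0)) := by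
  intro r hr c
  constructor
  · intro h
    obtain ⟨t, ht, s, hs, hts⟩ := h r le_rfl
    rcases hs with ⟨hs, _⟩ | ⟨_, hs⟩
    · exact absurd (PP.mem_mono hts hs) (hy t (ht.trans hr))
    · exact hs
  · exact fun h => meets_of_mem (Or.inr ⟨fun t ht => hy t (ht.trans hr), h⟩)

/-- Below every condition the name `En e y` gets the value `e x` for some point `x` of the generic
set. -/
theorem exists_point (p : PP) (y : K) : ∃ q ≤ p, ∃ x ∈ q.1.X, IsVal q (En e y) (e x) := by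
  by_cases h : ∃ q ≤ p, y ∈ q.1.X
  · obtain ⟨q, hq, hy⟩ := h
    exact ⟨q, hq, y, hy, isVal_mem hy⟩
  · push Not at h
    exact ⟨p, le_rfl, single 0 0, p.2 0 0, isVal_not h⟩

theorem isReal_En (p : PP) (y : K) : p ∈ IsReal (En e y) := by
  refine (reg_IsReal _).dense p fun q _ => ?_
  obtain ⟨r, hr, x, _, hx⟩ := exists_point (e := e) q y
  exact ⟨r, hr, hx.isReal⟩

/-! ### The generic set is a wQN-space -/

section wqn

variable {F : ℕ → K → ℚ → Set PP}

/-- on the neighbourhood `nb (pt s) l` the function `F m` is forced to be less than `2 ^ (-k)` -/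
def ThQ (F : ℕ → K → ℚ → Set PP) (i : ℕ × ℕ × Node × ℕ) : Set PP :=
  {p | ∀ q ≤ p, ∀ y ∈ nb (pt i.2.2.1) i.2.2.2, y ∈ q.1.X →
    q ∈ InIoo (F i.2.1 y) (-((1 / 2) ^ i.1)) ((1 / 2) ^ i.1)}

/-- on the neighbourhood `nb (pt s) l` the function `F m` is forced to be at least
`2 ^ (-(k + 1))` -/
def ThP (F : ℕ → K → ℚ → Set PP) (i : ℕ × ℕ × Node × ℕ) : Set PP :=
  {p | ∀ q ≤ p, ∀ y ∈ nb (pt i.2.2.1) i.2.2.2, y ∈ q.1.X →
    q ∉ InIoo (F i.2.1 y) (-((1 / 2) ^ (i.1 + 1))) ((1 / 2) ^ (i.1 + 1))}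

theorem down_ThQ (i) : Down (ThQ F i) := fun _ hp _ hq r hr => hp r (hr.trans hq)

theorem down_ThP (i) : Down (ThP F i) := fun _ hp _ hq r hr => hp r (hr.trans hq)

/-- the main step: continuity gives neighbourhoods -/
theorem exists_nb_of_cont (he : IsEmbedding e) {p : PP} {m : ℕ}
    (hc : p ∈ IsContinuous (En e) (F m)) {x : K} (hx : x ∈ p.1.X) {a b : ℚ}
    (h : p ∈ InIoo (F m x) a b) :
    ∃ q ≤ p, ∃ (s : Node) (l : ℕ), x ∈ nb (pt s) l ∧
      ∀ r ≤ q, ∀ y ∈ nb (pt s) l, y ∈ r.1.X → r ∈ InIoo (F m y) a b := by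
  obtain ⟨q, hq, h1⟩ := mem_fimp.1 (hc x a b) p le_rfl h
  obtain ⟨r, hr, c, h2⟩ := mem_fex.1 h1 q le_rfl
  obtain ⟨t, ht, d, h3, h4⟩ := mem_fex.1 h2 r le_rfl
  have htp : t ≤ p := ht.trans (hr.trans hq)
  have hxt : IsVal t (En e x) (e x) := isVal_mem (PP.mem_mono htp hx)
  have hcd := hxt.inIoo.1 h3
  obtain ⟨l, hl⟩ := exists_nb_subset (isOpen_Ioo.preimage he.continuous)
    (show x ∈ e ⁻¹' Ioo (c : ℝ) d from hcd)
  obtain ⟨s, hs⟩ : ∃ s : Node, nb (pt s) l = nb x l := exists_node' x l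
  refine ⟨t, htp, s, l, by rw [hs]; exact mem_nb_self x l, fun w hw y hy hyw => ?_⟩
  rw [hs] at hy
  have h5 : w ∈ InIoo (En e y) c d := (isVal_mem hyw).inIoo.2 (hl hy)
  exact fimp_elim (reg_InIoo _ _ _).down (reg_InIoo _ _ _) (h4 y) hw h5

end wqn

end Run7.h953
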