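import Mathlib

set_option autoImplicit false

/-!
# Nodes and good sets

`K` is the compact space of all subsets of `ℕ × ℕ` (as `Bool`-valued functions). A node is a finite
set `u` of pairs with a current column `d`, a number `m` (the elements put into the column `d` later
are larger than `m`) and a mark `b` telling whether the column `d` has been used (`true`) or has only
been opened (`false`).
-/

namespace Run7.h953

open Set Topology Filter

/-- The ambient compact space. -/
abbrev K : Type := ℕ × ℕ → Bool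

/-- Nodes. -/
structure Node where
  /-- the finite set of pairs -/
  u : Finset (ℕ × ℕ)
  /-- the current column -/
  d : ℕ
  /-- the current maximum -/
  m : ℕ
  /-- `true`: the current column has elements; `false`: it has just been opened -/
  b : Bool
deriving DecidableEq

instance : Countable Node := by
  have : Function.Injective (fun s : Node => (s.u, s.d, s.m, s.b)) := by
    rintro ⟨u, d, m, b⟩ ⟨u', d', m', b'⟩ h
    simp only [Prod.mk.injEq] at h
    obtain ⟨rfl, rfl, rfl, rfl⟩ := h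
    rfl
  exact this.countable

/-- The point of `K` belonging to a node. -/
def pt (s : Node) : K := fun z => decide (z ∈ s.u)

/-- Basic neighbourhoods of the points of `K`. -/
def nb (x : K) (p : ℕ) : Set K := {y | ∀ z : ℕ × ℕ, z.1 < p → z.2 < p → y z = x z}

theorem mem_nb_self (x : K) (p : ℕ) : x ∈ nb x p := fun _ _ _ => rfl

theorem nb_anti (x : K) {p q : ℕ} (h : p ≤ q) : nb x q ⊆ nb x p :=
  fun _ hy z h1 h2 => hy z (h1.trans_le h) (h2.trans_le h)

theorem nb_eq {x y : K} {p : ℕ} (h : y ∈ nb x p) : nb y p = nb x p := by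
  ext w
  constructor
  · intro hw z h1 h2
    rw [hw z h1 h2, h z h1 h2]
  · intro hw z h1 h2
    rw [hw z h1 h2, h z h1 h2]

theorem nb_zero (x : K) : nb x 0 = univ := by
  ext y
  simp [nb]

theorem nb_eq_biInter (x : K) (p : ℕ) :
    nb x p = ⋂ z ∈ (Finset.range p ×ˢ Finset.range p : Finset (ℕ × ℕ)), {y : K | y z = x z} := by
  ext y
  simp only [nb, mem_ofPred_eq, mem_iInter, Finset.mem_product, Finset.mem_range]
  exact ⟨fun h z hz => h z hz.1 hz.2, fun h z h1 h2 => h z ⟨h1, h2⟩⟩

theorem isClopen_nb (x : K) (p : ℕ) : IsClopen (nb x p) := by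
  rw [nb_eq_biInter]
  refine isClopen_biInter_finset fun z _ => ?_
  have : {y : K | y z = x z} = (fun y : K => y z) ⁻¹' {x z} := rfl
  rw [this]
  exact (isClopen_discrete _).preimage (continuous_apply z)

theorem exists_nb_subset {x : K} {O : Set K} (hO : IsOpen O) (hx : x ∈ O) :
    ∃ p, nb x p ⊆ O := by
  obtain ⟨I, v, hv, hvO⟩ := isOpen_pi_iff.1 hO x hx
  refine ⟨I.sup (fun z => max z.1 z.2) + 1, fun y hy => hvO fun z hz => ?_⟩
  have h1 : max z.1 z.2 ≤ I.sup (fun z => max z.1 z.2) :=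
    Finset.le_sup (f := fun z : ℕ × ℕ => max z.1 z.2) hz
  have h2 : y z = x z := hy z (by omega) (by omega)
  rw [h2]
  exact (hv z hz).2

theorem exists_node' (x : K) (p : ℕ) : ∃ s : Node, nb (pt s) p = nb x p := by
  classical
  let s : Node := ⟨(Finset.range p ×ˢ Finset.range p).filter fun z => x z = true, 0, 0, true⟩
  refine ⟨s, nb_eq fun z h1 h2 => ?_⟩
  simp only [pt, s, Finset.mem_filter, Finset.mem_product, Finset.mem_range, h1, h2, and_self,
    true_and, Bool.decide_eq_true]

/-- `c` continues `s` within the current column. -/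
def C (s c : Node) : Prop :=
  c.b = true ∧ c.d = s.d ∧ s.m < c.m ∧ s.u ⊆ c.u ∧
    (∀ z ∈ c.u, z ∉ s.u → z.1 = s.d ∧ s.m < z.2 ∧ z.2 ≤ c.m) ∧ (s.d, c.m) ∈ c.u

theorem C.trans {s c e : Node} (h : C s c) (h' : C c e) : C s e := by
  obtain ⟨-, h2, h3, h4, h5, -⟩ := h
  obtain ⟨h1', h2', h3', h4', h5', h6'⟩ := h'
  refine ⟨h1', h2'.trans h2, h3.trans h3', h4.trans h4', fun z hz hzs => ?_, ?_⟩
  · by_cases hc : z ∈ c.u
    · obtain ⟨a1, a2, a3⟩ := h5 z hc hzs
      exact ⟨a1, a2, a3.trans h3'.le⟩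
    · obtain ⟨a1, a2, a3⟩ := h5' z hz hc
      exact ⟨a1.trans h2, h3.trans a2, a3⟩
  · rw [← h2]
    exact h6'

/-- Open a new column. -/
def mk (s : Node) (d : ℕ) : Node := ⟨s.u, d, s.m, false⟩

theorem pt_mk (s : Node) (d : ℕ) : pt (mk s d) = pt s := rfl

theorem pt_mem_nb_of_C_mk {s c : Node} {d p : ℕ} (h : C (mk s d) c) (hp : p ≤ d) :
    pt c ∈ nb (pt s) p := by
  obtain ⟨-, -, -, h4, h5, -⟩ := h
  intro z h1 _
  simp only [pt]
  congr 1
  apply propext
  constructor
  · intro hz
    by_contra hzs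
    have := (h5 z hz hzs).1
    simp only [mk] at this
    omega
  · exact fun hz => h4 hz

/-- A promise `(s, p, q)`: for all `m ≥ q` the set `A` has a continuation `c` of `s` with maximum
`m` in the neighbourhood `nb (pt s) p`. -/
def Prom (A : Set Node) (f : Node × ℕ × ℕ) : Prop :=
  f.1 ∈ A ∧ ∀ m, f.2.2 ≤ m → ∃ c ∈ A, C f.1 c ∧ c.m = m ∧ pt c ∈ nb (pt f.1) f.2.1

/-- Good sets of nodes. -/
structure Good (A : Set Node) : Prop where
  ne : A.Nonempty
  prom : ∀ s ∈ A, ∀ p, ∃ q, Prom A (s, p, q)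
  full : ∀ s ∈ A, s.b = false → Prom A (s, 0, s.m + 1)
  open' : ∀ s ∈ A, s.b = true → ∀ k, ∃ d, k ≤ d ∧ mk s d ∈ A

theorem good_univ : Good (univ : Set Node) := by
  have key : ∀ (s : Node) (m : ℕ), s.m < m →
      C s ⟨insert (s.d, m) s.u, s.d, m, true⟩ := by
    intro s m hm
    refine ⟨rfl, rfl, hm, Finset.subset_insert _ _, fun z hz hzs => ?_,
      Finset.mem_insert_self _ _⟩
    rcases Finset.mem_insert.1 hz with rfl | h
    · exact ⟨rfl, hm, le_rfl⟩
    · exact absurd h hzs
  refine ⟨⟨⟨∅, 0, 0, true⟩, mem_univ _⟩, fun s _ p => ⟨max p (s.m + 1), mem_univ _,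
    fun m hm => ⟨_, mem_univ _, key s m ?_, rfl, ?_⟩⟩, fun s _ _ => ⟨mem_univ _,
    fun m hm => ⟨_, mem_univ _, key s m ?_, rfl, ?_⟩⟩, fun s _ _ k => ⟨k, le_rfl, mem_univ _⟩⟩
  · have h1 : max p (s.m + 1) ≤ m := hm
    omega
  · have h1 : max p (s.m + 1) ≤ m := hm
    intro z _ hz2
    have hz2' : z.2 < p := hz2
    simp only [pt]
    congr 1
    apply propext
    rw [Finset.mem_insert]
    constructor
    · rintro (rfl | h)
      · simp only at hz2'
        omega
      · exact h
    · exact Or.inr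
  · have h1 : s.m + 1 ≤ m := hm
    omega
  · simp [nb]

end Run7.h953
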