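import Pool.Agent.Run7.h953.Fusion
import Pool.Agent.Run7.h953.Branch

set_option autoImplicit false

/-!
# The notion of forcing
-/

namespace Run7.h953

open Set Topology Filter

/-- Conditions: countably many points, and countably many good sets. -/
structure Cond where
  /-- the points -/
  X : Set K
  /-- the good sets -/
  T : Set (Set Node)
  hX : X.Countable
  hT : T.Countable
  ne : T.Nonempty
  good : ∀ A ∈ T, Good A

instance : Preorder Cond where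
  le q p := p.X ⊆ q.X ∧ (∀ x ∈ q.X, x ∉ p.X → ∃ A ∈ p.T, x ∈ closure (pt '' A)) ∧
    (∀ A ∈ q.T, ∃ B ∈ p.T, A ⊆ B) ∧
    (∀ A ∈ p.T, ∀ F : Finset (Node × ℕ × ℕ), F.Nonempty → (∀ f ∈ F, Prom A f) →
      ∃ B ∈ q.T, B ⊆ A ∧ ∀ f ∈ F, Prom B f)
  le_refl p := ⟨Subset.rfl, fun x h h' => absurd h h', fun A hA => ⟨A, hA, Subset.rfl⟩,
    fun A hA F _ hF => ⟨A, hA, Subset.rfl, hF⟩⟩
  le_trans a b c h h' := by
    obtain ⟨h1, h2, h3, h4⟩ := h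
    obtain ⟨h1', h2', h3', h4'⟩ := h'
    refine ⟨h1'.trans h1, fun x hx hxc => ?_, fun A hA => ?_, fun A hA F hne hF => ?_⟩
    · by_cases hxb : x ∈ b.X
      · exact h2' x hxb hxc
      · obtain ⟨A, hA, hxA⟩ := h2 x hx hxb
        obtain ⟨B, hB, hAB⟩ := h3' A hA
        exact ⟨B, hB, closure_mono (image_mono hAB) hxA⟩
    · obtain ⟨B, hB, hAB⟩ := h3 A hA
      obtain ⟨D, hD, hBD⟩ := h3' B hB
      exact ⟨D, hD, hAB.trans hBD⟩
    · obtain ⟨B, hB, hBA, hBF⟩ := h4' A hA F hne hF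
      obtain ⟨D, hD, hDB, hDF⟩ := h4 B hB F hne hBF
      exact ⟨D, hD, hDB.trans hBA, hDF⟩

theorem le_def {q p : Cond} : q ≤ p ↔ p.X ⊆ q.X ∧
    (∀ x ∈ q.X, x ∉ p.X → ∃ A ∈ p.T, x ∈ closure (pt '' A)) ∧
    (∀ A ∈ q.T, ∃ B ∈ p.T, A ⊆ B) ∧
    (∀ A ∈ p.T, ∀ F : Finset (Node × ℕ × ℕ), F.Nonempty → (∀ f ∈ F, Prom A f) →
      ∃ B ∈ q.T, B ⊆ A ∧ ∀ f ∈ F, Prom B f) := Iff.rfl

/-- The fusion of a chain of families. -/
theorem fuse_chain (T : ℕ → Set (Set Node))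
    (hT : ∀ n, ∀ A ∈ T n, Good A) (hstep : ∀ n, ∀ A ∈ T n, ∀ F : Finset (Node × ℕ × ℕ), F.Nonempty →
      (∀ f ∈ F, Prom A f) → ∃ B ∈ T (n + 1), B ⊆ A ∧ ∀ f ∈ F, Prom B f)
    {A : Set Node} (hA : A ∈ T 0) (F : Finset (Node × ℕ × ℕ)) (hne : F.Nonempty)
    (hF : ∀ f ∈ F, Prom A f) :
    ∃ B, Good B ∧ B ⊆ A ∧ (∀ f ∈ F, Prom B f) ∧ ∀ n, ∃ A' ∈ T n, B ⊆ A' := by
  let S : ℕ → Type := fun n => {z : Set Node × Finset (Node × ℕ × ℕ) //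
    z.1 ∈ T n ∧ z.2.Nonempty ∧ ∀ f ∈ z.2, Prom z.1 f}
  have step : ∀ n, ∀ z : S n, ∃ z' : S (n + 1), z'.1.1 ⊆ z.1.1 ∧ Ext z.1.2 z'.1.2 n := by
    rintro n ⟨⟨A, F⟩, h1, h2, h3⟩
    obtain ⟨F', hE, hF'⟩ := exists_ext (hT n A h1) F h3 n
    obtain ⟨B, hB, hBA, hBF⟩ := hstep n A h1 F' (h2.mono hE.sub) hF'
    exact ⟨⟨(B, F'), hB, h2.mono hE.sub, hBF⟩, hBA, hE⟩
  choose nx hnx hnx' using step
  let z : (n : ℕ) → S n := fun n => Nat.rec (motive := fun n => S n) ⟨(A, F), hA, hne, hF⟩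
    (fun n z => nx n z) n
  have hz : ∀ n, z (n + 1) = nx n (z n) := fun n => rfl
  obtain ⟨B, hB1, hB2, hB3⟩ := fusion (A := fun n => (z n).1.1) (F := fun n => (z n).1.2)
    (fun n => by rw [hz]; exact hnx _ _) (fun n => (z n).2.2.2) hne
    (fun n => by rw [hz]; exact hnx' _ _)
  exact ⟨B, hB1, hB3 0, hB2 0, fun n => ⟨_, (z n).2.1, hB3 n⟩⟩

theorem anti_of_step {s : ℕ → Cond} (hs : ∀ n, s (n + 1) ≤ s n) {m n : ℕ} (h : m ≤ n) :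
    s n ≤ s m := by
  induction n, h using Nat.le_induction with
  | base => exact le_rfl
  | succ n _ ih => exact (hs n).trans ih

/-- The notion of forcing is `σ`-closed. -/
theorem sigma_closed (s : ℕ → Cond) (hs : ∀ n, s (n + 1) ≤ s n) : ∃ q : Cond, ∀ n, q ≤ s n := by
  classical
  let I : Type := Σ n : ℕ, {z : (s n).T × Finset (Node × ℕ × ℕ) //
    z.2.Nonempty ∧ ∀ f ∈ z.2, Prom z.1.1 f}
  have hTc : ∀ n, Countable (s n).T := fun n => (s n).hT.to_subtype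
  have hI : Countable I := by
    have := hTc
    infer_instance
  have key : ∀ i : I, ∃ B, Good B ∧ B ⊆ i.2.1.1.1 ∧ (∀ f ∈ i.2.1.2, Prom B f) ∧
      ∀ n, ∃ A' ∈ (s (i.1 + n)).T, B ⊆ A' := by
    rintro ⟨n, ⟨⟨⟨A, hA⟩, F⟩, hne, hF⟩⟩
    exact fuse_chain (fun k => (s (n + k)).T) (fun k => (s (n + k)).good)
      (fun k A hA F hne hF => (hs (n + k)).2.2.2 A hA F hne hF) hA F hne hF
  choose B hB1 hB2 hB3 hB4 using key
  have hneI : Nonempty I := by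
    obtain ⟨A, hA⟩ := (s 0).ne
    obtain ⟨t, ht⟩ := ((s 0).good A hA).ne
    obtain ⟨q, hq⟩ := ((s 0).good A hA).prom t ht 0
    exact ⟨⟨0, ⟨(⟨A, hA⟩, {(t, 0, q)}), by simp, by simpa using hq⟩⟩⟩
  refine ⟨⟨⋃ n, (s n).X, range B, countable_iUnion fun n => (s n).hX, countable_range B,
    range_nonempty B, ?_⟩, fun n => ⟨subset_iUnion (fun n => (s n).X) n, ?_, ?_, ?_⟩⟩
  · rintro _ ⟨i, rfl⟩
    exact hB1 i
  · intro x hx hxn
    obtain ⟨k, hk⟩ := mem_iUnion.1 hx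
    rcases le_total n k with h | h
    · exact (anti_of_step hs h).2.1 x hk hxn
    · exact absurd ((anti_of_step hs h).1 hk) hxn
  · rintro _ ⟨i, rfl⟩
    rcases le_total i.1 n with h | h
    · obtain ⟨A', hA', h1⟩ := hB4 i (n - i.1)
      rw [show i.1 + (n - i.1) = n by omega] at hA'
      exact ⟨A', hA', h1⟩
    · obtain ⟨D, hD, h1⟩ := (anti_of_step hs h).2.2.1 _ i.2.1.1.2
      exact ⟨D, hD, (hB2 i).trans h1⟩
  · intro A hA F hne hF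
    exact ⟨_, ⟨⟨n, ⟨(⟨A, hA⟩, F), hne, hF⟩⟩, rfl⟩, hB2 ⟨n, ⟨(⟨A, hA⟩, F), hne, hF⟩⟩,
      hB3 ⟨n, ⟨(⟨A, hA⟩, F), hne, hF⟩⟩⟩

/-- Adding a point. -/
theorem exists_add (p : Cond) {A : Set Node} (hA : A ∈ p.T) {x : K} (hx : x ∈ closure (pt '' A)) :
    ∃ q ≤ p, x ∈ q.X := by
  refine ⟨⟨insert x p.X, p.T, p.hX.insert x, p.hT, p.ne, p.good⟩, ⟨subset_insert _ _, ?_,
    fun A hA => ⟨A, hA, Subset.rfl⟩, fun A hA F _ hF => ⟨A, hA, Subset.rfl, hF⟩⟩, mem_insert _ _⟩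
  rintro y (rfl | hy) hyp
  · exact ⟨A, hA, hx⟩
  · exact absurd hy hyp

/-- Density for the sets `V`. -/
theorem dense_branch (p : Cond) {g : ℕ → ℕ} (hg : Tendsto g atTop atTop) :
    ∃ q ≤ p, ∃ x ∈ q.X, ∃ᶠ d in atTop, x ∈ V d (g d) := by
  obtain ⟨A, hA⟩ := p.ne
  obtain ⟨x, hx, hxg⟩ := exists_branch (p.good A hA) hg
  obtain ⟨q, hq, hxq⟩ := exists_add p hA hx
  exact ⟨q, hq, x, hxq, hxg⟩

/-- Density for the selections. -/
theorem dense_select (p : Cond) {P Q : ℕ → ℕ → Set K} (hP : ∀ k m, IsOpen (P k m))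
    (hQ : ∀ k m, IsOpen (Q k m)) :
    ∃ q ≤ p, (∃ x ∈ q.X, ∃ k, ¬ Fine (P k) (Q k) x) ∨
      ∃ μ : ℕ → ℕ, StrictMono μ ∧ (∀ x ∈ q.X, ∀ᶠ k in atTop, x ∈ Q k (μ k)) ∧
        ∀ A ∈ q.T, ∀ x ∈ closure (pt '' A), ∀ᶠ k in atTop, x ∈ Q k (μ k) := by
  classical
  by_cases h1 : ∃ x ∈ p.X, ∃ k, ¬ Fine (P k) (Q k) x
  · exact ⟨p, le_rfl, Or.inl h1⟩
  by_cases h2 : ∃ A ∈ p.T, ∃ x ∈ closure (pt '' A), ∃ k, ¬ Fine (P k) (Q k) x
  · obtain ⟨A, hA, x, hx, hk⟩ := h2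
    obtain ⟨q, hq, hxq⟩ := exists_add p hA hx
    exact ⟨q, hq, Or.inl ⟨x, hxq, hk⟩⟩
  push Not at h1 h2
  let I : Type := {z : p.T × Finset (Node × ℕ × ℕ) // z.2.Nonempty ∧ ∀ f ∈ z.2, Prom z.1.1 f}
  have hTc : Countable p.T := p.hT.to_subtype
  have hI : Countable I := by infer_instance
  have hneI : Nonempty I := by
    obtain ⟨A, hA⟩ := p.ne
    obtain ⟨t, ht⟩ := (p.good A hA).ne
    obtain ⟨q, hq⟩ := (p.good A hA).prom t ht 0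
    exact ⟨⟨(⟨A, hA⟩, {(t, 0, q)}), by simp, by simpa using hq⟩⟩
  obtain ⟨e, he⟩ := exists_surjective_nat I
  let S : ℕ → St := fun j => ⟨(e j).1.1.1, (e j).1.2, p.good _ (e j).1.1.2, (e j).2.1, (e j).2.2⟩
  -- the points
  obtain ⟨A0, hA0⟩ := p.ne
  obtain ⟨t0, ht0⟩ := (p.good A0 hA0).ne
  have hY : (insert (pt t0) p.X).Countable := p.hX.insert _
  obtain ⟨y, hy⟩ := hY.exists_eq_range (insert_nonempty _ _)
  have hyF : ∀ j k, Fine (P k) (Q k) (y j) := by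
    intro j k
    have h3 : y j ∈ insert (pt t0) p.X := by
      rw [hy]
      exact mem_range_self j
    rcases h3 with h3 | h3
    · rw [h3]
      exact h2 A0 hA0 _ (subset_closure ⟨t0, ht0, rfl⟩) k
    · exact h1 _ h3 k
  obtain ⟨μ, hμ, hμy, hB⟩ := selection hP hQ S
    (fun k j x hx => h2 _ (e j).1.1.2 x hx k) y (fun k j => by
      obtain ⟨h3, h4⟩ := hyF j k
      have h5 : ∀ᶠ m in atTop, m ∉ {m | y j ∈ P k m} := by
        rw [← Nat.cofinite_eq_atTop]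
        exact h4.eventually_cofinite_notMem
      filter_upwards [h5] with m hm
      exact (h3 m).resolve_left hm)
  choose B hB1 hB2 hB3 hB4 using hB
  refine ⟨⟨p.X, range B, p.hX, countable_range B, range_nonempty B, ?_⟩, ⟨Subset.rfl,
    fun x h h' => absurd h h', ?_, ?_⟩, Or.inr ⟨μ, hμ, fun x hx => ?_, ?_⟩⟩
  · rintro _ ⟨j, rfl⟩
    exact hB2 j
  · rintro _ ⟨j, rfl⟩
    exact ⟨_, (e j).1.1.2, hB1 j⟩
  · intro A hA F hne hF
    obtain ⟨j, hj⟩ := he ⟨(⟨A, hA⟩, F), hne, hF⟩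
    refine ⟨B j, mem_range_self j, ?_, ?_⟩
    · have := hB1 j
      simp only [S, hj] at this
      exact this
    · have := hB3 j
      simp only [S, hj] at this
      exact this
  · have h3 : x ∈ insert (pt t0) p.X := Or.inr hx
    rw [hy] at h3
    obtain ⟨j, rfl⟩ := h3
    exact hμy j
  · rintro _ ⟨j, rfl⟩ x hx
    filter_upwards [eventually_ge_atTop j] with k hk
    exact hB4 j k hk hx

end Run7.h953
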