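import Mathlib

set_option autoImplicit false

/-!
# The forcing relation, wQN-spaces and `S₁(Γ, Γ)`

A sentence of the forcing language of a preordered set `P` of conditions is represented by the set
of the conditions which force it. Negation, conjunction and universal quantification are the
primitive connectives, with their usual forcing clauses; the other connectives are defined from them
classically. A name for a subset of a ground model set `I` is a map sending `i : I` to the set of
the conditions attached to `i`.

* A real number of the extension is named by a name `x : ℚ → Set P` of the set of the rational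
  numbers below it.
* A set of reals of the extension is named by a family `E : Y → ℚ → Set P` of such names, which is
  indexed by a ground model set `Y`; it is the set `X = {E y : y ∈ Y}`.
* A function from `X` to the reals is named by a family `G : Y → ℚ → Set P`; it sends `E y` to `G y`.
* An open set of reals is named by a name `O : ℚ × ℚ → Set P` of a set of open intervals with
  rational end points; it stands for the union of the intervals.
* An open subset of `X` is the trace `O ∩ X` of an open set of reals, and a family of open subsets
  of `X` is named by `U : (ℚ × ℚ → Set P) → Set P`, which sends every name of an open set to the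
  set of the conditions attached to it.
-/

namespace Run7.h953.Sent

universe u v

variable {P : Type u} [Preorder P]

/-- `p` forces `not φ` iff no `q ≤ p` forces `φ`. -/
def fnot (φ : Set P) : Set P := {p | ∀ q ≤ p, q ∉ φ}

/-- `p` forces `φ and ψ` iff it forces both. -/
def fand (φ ψ : Set P) : Set P := {p | p ∈ φ ∧ p ∈ ψ}

/-- `p` forces `for all i, φ i` iff it forces every `φ i`. -/
def fall {ι : Sort v} (φ : ι → Set P) : Set P := {p | ∀ i, p ∈ φ i}

/-- `φ implies ψ` is `not (φ and not ψ)`. -/
def fimp (φ ψ : Set P) : Set P := fnot (fand φ (fnot ψ))

/-- `there is i with φ i` is `not for all i, not φ i`. -/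
def fex {ι : Sort v} (φ : ι → Set P) : Set P := fnot (fall fun i => fnot (φ i))

/-- An absolute statement about ground model objects. -/
def fground (h : Prop) : Set P := {_p | h}

/-- `p` forces that the generic filter meets the set `N` of conditions:
the set of `r` lying below some member of `N` is dense below `p`. -/
def meets (N : Set P) : Set P := {p | ∀ q ≤ p, ∃ r ≤ q, ∃ s ∈ N, r ≤ s}

/-- The relation named by `R` is a function from `I` to `J`. -/
def IsFun {I J : Type} (R : I → J → Set P) : Set P :=
  fand (fall fun i => fex fun j => meets (R i j))
    (fall fun i => fall fun j => fall fun j' =>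
      fimp (fand (meets (R i j)) (meets (R i j'))) (fground (j = j')))

/-- The set of rationals named by `x` is the set of the rationals below some real number: it is
neither empty nor everything, it is closed downwards, and it has no largest element. -/
def IsReal (x : ℚ → Set P) : Set P :=
  fand (fand (fex fun a => meets (x a)) (fex fun a => fnot (meets (x a))))
    (fand (fall fun a : ℚ => fall fun b : ℚ => fall fun _ : b < a => fimp (meets (x a)) (meets (x b)))
      (fall fun a : ℚ => fimp (meets (x a)) (fex fun b : ℚ => fand (fground (a < b)) (meets (x b)))))

/-- The real number `x` lies in the open interval `(a, b)`: `a` is below it, and some `c < b` is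
not below it. -/
def InIoo (x : ℚ → Set P) (a b : ℚ) : Set P :=
  fand (meets (x a)) (fex fun c : ℚ => fand (fground (c < b)) (fnot (meets (x c))))

section

variable {Y : Type}

/-- The function `E y ↦ G y` from the set of reals `X = {E y : y ∈ Y}` to the reals is continuous:
if `G y` is in the open interval `(a, b)`, then there is an open interval `(c, d)` around `E y` such
that `G z ∈ (a, b)` for all `z` with `E z ∈ (c, d)`. -/
def IsContinuous (E G : Y → ℚ → Set P) : Set P :=
  fall fun y => fall fun a : ℚ => fall fun b : ℚ => fimp (InIoo (G y) a b)
    (fex fun c : ℚ => fex fun d : ℚ => fand (InIoo (E y) c d)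
      (fall fun z => fimp (InIoo (E z) c d) (InIoo (G z) a b)))

/-- The set of reals `X = {E y : y ∈ Y}` is a wQN-space: for every sequence `F 0, F 1, …` of
continuous functions from `X` to the reals which converges pointwise to zero there are a strictly
increasing sequence `φ` of natural numbers and a sequence `ε` of positive rational numbers which
converges to zero, such that for every point `E y` of `X` the inequality `|F (φ n) y| < ε n` holds
for all but finitely many `n`. -/
def IsWQN (E : Y → ℚ → Set P) : Set P :=
  fall fun F : ℕ → Y → ℚ → Set P =>
    fimp (fand (fall fun n => fand (fall fun y => IsReal (F n y)) (IsContinuous E (F n)))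
        (fall fun y => fall fun e : ℚ => fall fun _ : 0 < e => fex fun N : ℕ => fall fun n : ℕ =>
          fall fun _ : N ≤ n => InIoo (F n y) (-e) e))
      (fex fun φ : ℕ → ℕ → Set P => fex fun ε : ℕ → ℚ → Set P =>
        fand (fand
          (fand (IsFun φ) (fall fun n : ℕ => fall fun a : ℕ => fall fun b : ℕ =>
            fimp (fand (meets (φ n a)) (meets (φ (n + 1) b))) (fground (a < b))))
          (fand (IsFun ε) (fand
            (fall fun n : ℕ => fall fun a : ℚ => fimp (meets (ε n a)) (fground (0 < a)))
            (fall fun e : ℚ => fall fun _ : 0 < e => fex fun N : ℕ => fall fun n : ℕ =>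
              fall fun _ : N ≤ n => fall fun a : ℚ => fimp (meets (ε n a)) (fground (a < e))))))
          (fall fun y => fex fun N : ℕ => fall fun n : ℕ => fall fun _ : N ≤ n =>
            fall fun m : ℕ => fall fun e : ℚ =>
              fimp (fand (meets (φ n m)) (meets (ε n e))) (InIoo (F m y) (-e) e)))

/-- The real number `x` belongs to the open set `O`. -/
def InOpen (x : ℚ → Set P) (O : ℚ × ℚ → Set P) : Set P :=
  fex fun J : ℚ × ℚ => fand (meets (O J)) (InIoo x J.1 J.2)

/-- The open sets of reals `O` and `O'` have the same trace on `X = {E y : y ∈ Y}`. -/
def SameTrace (E : Y → ℚ → Set P) (O O' : ℚ × ℚ → Set P) : Set P :=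
  fall fun y => fand (fimp (InOpen (E y) O) (InOpen (E y) O'))
    (fimp (InOpen (E y) O') (InOpen (E y) O))

/-- The family of the traces on `X = {E y : y ∈ Y}` of the members of `U` is an open `γ`-cover of
`X`: it is infinite (for all open sets `W 0, …, W (m - 1)` there is a member of `U` whose trace is
different from their traces), `X` is not a member, and every point of `X` lies in all but finitely
many members (the traces of those members of `U` which do not contain the point are among the traces
of finitely many open sets `W 0, …, W (m - 1)`). -/
def IsGammaCover (E : Y → ℚ → Set P) (U : (ℚ × ℚ → Set P) → Set P) : Set P :=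
  fand
    (fall fun m : ℕ => fall fun W : ℕ → ℚ × ℚ → Set P => fex fun O : ℚ × ℚ → Set P =>
      fand (meets (U O)) (fall fun k : ℕ => fall fun _ : k < m => fnot (SameTrace E O (W k))))
    (fand
      (fall fun O : ℚ × ℚ → Set P => fimp (meets (U O)) (fex fun y => fnot (InOpen (E y) O)))
      (fall fun y => fex fun m : ℕ => fex fun W : ℕ → ℚ × ℚ → Set P => fall fun O : ℚ × ℚ → Set P =>
        fimp (fand (meets (U O)) (fnot (InOpen (E y) O)))
          (fex fun k : ℕ => fand (fground (k < m)) (SameTrace E O (W k)))))

/-- The set of reals `X = {E y : y ∈ Y}` satisfies `S₁(Γ, Γ)`: for every sequence `U 0, U 1, …` of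
open `γ`-covers of `X` there are open sets `V 0, V 1, …` such that the trace of `V n` is the trace
of a member of `U n`, and the traces of `V 0, V 1, …` form a `γ`-cover of `X`. -/
def IsS1GammaGamma (E : Y → ℚ → Set P) : Set P :=
  fall fun U : ℕ → (ℚ × ℚ → Set P) → Set P =>
    fimp (fall fun n => IsGammaCover E (U n))
      (fex fun V : ℕ → ℚ × ℚ → Set P =>
        fand (fall fun n => fex fun O : ℚ × ℚ → Set P => fand (meets (U n O)) (SameTrace E (V n) O))
          (IsGammaCover E fun O => {_p | ∃ n, O = V n}))

end

end Run7.h953.Sent
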