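import Pool.Agent.Run7.h953.Node

set_option autoImplicit false

/-!
# The one-step lemma
-/

namespace Run7.h953

open Set Topology Filter

/-- Baire category: below a promise there is a compact reserve which is eventually contained in the
sets `Q m`. -/
theorem reserve {A : Set Node} (hA : Good A) {P Q : ℕ → Set K} (hP : ∀ m, IsOpen (P m))
    (hcl : ∀ x ∈ closure (pt '' A), (∀ m, x ∈ P m ∪ Q m) ∧ {m | x ∈ P m}.Finite)
    {f : Node × ℕ × ℕ} (hf : Prom A f) :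
    ∃ Z : Set K, IsCompact Z ∧ (∀ᶠ m in atTop, Z ⊆ Q m) ∧ pt f.1 ∈ Z ∧
      ∀ m, f.2.2 ≤ m → ∃ c ∈ A, C f.1 c ∧ c.m = m ∧ pt c ∈ nb (pt f.1) f.2.1 ∩ Z := by
  obtain ⟨s, p, q⟩ := f
  simp only at *
  have hsA : s ∈ A := hf.1
  have hev : ∀ x ∈ closure (pt '' A), ∀ᶠ m in atTop, x ∈ Q m := by
    intro x hx
    obtain ⟨h1, h2⟩ := hcl x hx
    have h3 : ∀ᶠ m in atTop, m ∉ {m | x ∈ P m} := by
      rw [← Nat.cofinite_eq_atTop]
      exact h2.eventually_cofinite_notMem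
    filter_upwards [h3] with m hm
    exact (h1 m).resolve_left hm
  -- the compact set to which the category theorem is applied
  let Y : Set K := closure (pt '' {c | c ∈ A ∧ C s c}) ∩ nb (pt s) p
  have hYc : IsClosed Y := isClosed_closure.inter (isClopen_nb _ _).isClosed
  have hYsub : Y ⊆ closure (pt '' A) := fun x hx =>
    closure_mono (image_mono fun c hc => hc.1) hx.1
  have hYne : Y.Nonempty := by
    obtain ⟨c, hc, h1, -, h2⟩ := hf.2 q le_rfl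
    exact ⟨pt c, subset_closure ⟨c, ⟨hc, h1⟩, rfl⟩, h2⟩
  have : Nonempty Y := hYne.to_subtype
  have : CompactSpace Y := isCompact_iff_compactSpace.1 hYc.isCompact
  let g : ℕ → Set Y := fun j => {x | ∀ m, j ≤ m → (x : K) ∉ P m}
  have hgc : ∀ j, IsClosed (g j) := by
    intro j
    have : g j = ⋂ m, ⋂ _ : j ≤ m, (Subtype.val ⁻¹' (P m))ᶜ := by
      ext x
      simp [g]
    rw [this]
    exact isClosed_iInter fun m => isClosed_iInter fun _ =>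
      ((hP m).preimage continuous_subtype_val).isClosed_compl
  have hgU : ⋃ j, g j = univ := by
    refine eq_univ_of_forall fun x => ?_
    obtain ⟨-, h2⟩ := hcl x (hYsub x.2)
    obtain ⟨N, hN⟩ := h2.bddAbove
    refine mem_iUnion.2 ⟨N + 1, fun m hm hxm => ?_⟩
    have := hN hxm
    omega
  obtain ⟨j, x, hx⟩ := nonempty_interior_of_iUnion_of_closed hgc hgU
  obtain ⟨U, hUg, hUo, hxU⟩ := mem_interior.1 hx
  obtain ⟨O, hO, rfl⟩ := isOpen_induced_iff.1 hUo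
  have hxO : (x : K) ∈ O := hxU
  obtain ⟨y, ⟨hyO, hyn⟩, r, ⟨hrA, hrC⟩, rfl⟩ := mem_closure_iff.1 x.2.1 (O ∩ nb (pt s) p)
    (hO.inter (isClopen_nb _ _).isOpen) ⟨hxO, x.2.2⟩
  obtain ⟨l, hl⟩ := exists_nb_subset (hO.inter (isClopen_nb (pt s) p).isOpen) ⟨hyO, hyn⟩
  obtain ⟨q', hq'⟩ := hA.prom r hrA l
  -- the compact part of the reserve
  let W : Set K := closure (pt '' {c | c ∈ A ∧ C s c}) ∩ nb (pt r) l
  have hWc : IsCompact W := (isClosed_closure.inter (isClopen_nb _ _).isClosed).isCompact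
  have hWQ : ∀ m, j ≤ m → W ⊆ Q m := by
    intro m hm w hw
    have hwY : w ∈ Y := ⟨hw.1, (hl hw.2).2⟩
    have h1 : (⟨w, hwY⟩ : Y) ∈ g j := hUg (hl hw.2).1
    exact ((hcl w (hYsub hwY)).1 m).resolve_left (h1 m hm)
  -- the finitely many continuations which are not in the reserve
  choose e he using fun m : {m // q ≤ m} => hf.2 m.1 m.2
  let S : Set K := (fun m : {m // q ≤ m} => pt (e m)) '' {m | m.1 < q'}
  have hSf : S.Finite := by
    refine Set.Finite.image _ ?_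
    refine Set.Finite.of_injOn (f := Subtype.val) (t := Iio q') (fun m hm => hm)
      Subtype.val_injective.injOn (finite_Iio q')
  have hSA : S ⊆ closure (pt '' A) := by
    rintro _ ⟨m, -, rfl⟩
    exact subset_closure ⟨_, (he m).1, rfl⟩
  refine ⟨W ∪ (S ∪ {pt s}), hWc.union (hSf.isCompact.union isCompact_singleton), ?_, ?_, ?_⟩
  · have h1 : ∀ᶠ m in atTop, ∀ x ∈ S, x ∈ Q m := by
      rw [eventually_all_finite hSf]
      exact fun x hx => hev x (hSA hx)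
    filter_upwards [eventually_ge_atTop j, h1, hev _ (subset_closure ⟨s, hsA, rfl⟩)] with m
      hm1 hm2 hm3
    rintro w (hw | hw | hw)
    · exact hWQ m hm1 hw
    · exact hm2 w hw
    · rw [hw]
      exact hm3
  · exact Or.inr (Or.inr rfl)
  · intro m hm
    by_cases hmq : m < q'
    · obtain ⟨h1, h2, h3, h4⟩ := he ⟨m, hm⟩
      exact ⟨_, h1, h2, h3, h4, Or.inr (Or.inl ⟨⟨m, hm⟩, hmq, rfl⟩)⟩
    · obtain ⟨c, hcA, hcC, hcm, hcn⟩ := hq'.2 m (not_lt.1 hmq)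
      have hCsc : C s c := hrC.trans hcC
      exact ⟨c, hcA, hCsc, hcm, (hl hcn).2, Or.inl ⟨subset_closure ⟨c, ⟨hcA, hCsc⟩, rfl⟩, hcn⟩⟩

/-- The one-step lemma. -/
theorem one_step {A : Set Node} (hA : Good A) {P Q : ℕ → Set K} (hP : ∀ m, IsOpen (P m))
    (hQ : ∀ m, IsOpen (Q m))
    (hcl : ∀ x ∈ closure (pt '' A), (∀ m, x ∈ P m ∪ Q m) ∧ {m | x ∈ P m}.Finite)
    (F : Finset (Node × ℕ × ℕ)) (hne : F.Nonempty) (hF : ∀ f ∈ F, Prom A f) :
    ∃ m0, ∀ m, m0 ≤ m → ∃ A' ⊆ A, Good A' ∧ (∀ f ∈ F, Prom A' f) ∧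
      closure (pt '' A') ⊆ Q m := by
  classical
  let F' : Finset (Node × ℕ × ℕ) :=
    F ∪ (F.filter fun f => f.1.b = false).image fun f => (f.1, 0, f.1.m + 1)
  have hF' : ∀ f ∈ F', Prom A f := by
    intro f hf
    rcases Finset.mem_union.1 hf with h | h
    · exact hF f h
    · obtain ⟨g, hg, rfl⟩ := Finset.mem_image.1 h
      obtain ⟨hg1, hg2⟩ := Finset.mem_filter.1 hg
      exact hA.full _ (hF g hg1).1 hg2
  choose Z hZc hZQ hZs hZ using fun f : {f // f ∈ F'} => reserve hA hP hcl (hF' f.1 f.2)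
  let Z1 : Set K := ⋃ f : {f // f ∈ F'}, Z f
  have hZ1c : IsCompact Z1 := isCompact_iUnion hZc
  have hZ1Q : ∀ᶠ m in atTop, Z1 ⊆ Q m := by
    have := eventually_all.2 hZQ
    filter_upwards [this] with m hm
    exact iUnion_subset hm
  obtain ⟨m0, hm0⟩ := eventually_atTop.1 hZ1Q
  refine ⟨m0, fun m hm => ?_⟩
  obtain ⟨G, hGo, hZG, hGQ⟩ : ∃ G : Set K, IsOpen G ∧ Z1 ⊆ G ∧ closure G ⊆ Q m := by
    obtain ⟨G, h1, h2, h3⟩ := normal_exists_closure_subset hZ1c.isClosed (hQ m) (hm0 m hm)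
    exact ⟨G, h1, h2, h3⟩
  have hZf : ∀ f ∈ F', ∃ Y : Set K, Y ⊆ G ∧ pt f.1 ∈ Y ∧
      ∀ m, f.2.2 ≤ m → ∃ c ∈ A, C f.1 c ∧ c.m = m ∧ pt c ∈ nb (pt f.1) f.2.1 ∩ Y :=
    fun f hf => ⟨Z ⟨f, hf⟩, (subset_iUnion Z _).trans hZG, hZs ⟨f, hf⟩, hZ ⟨f, hf⟩⟩
  let A' : Set Node := {t | t ∈ A ∧ pt t ∈ G ∧
    (t.b = false → (∃ f ∈ F, f.1 = t) ∨ ∀ c ∈ A, C t c → pt c ∈ G)}
  have hA'A : A' ⊆ A := fun t ht => ht.1
  have hmem : ∀ c ∈ A, c.b = true → pt c ∈ G → c ∈ A' := fun c h1 h2 h3 =>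
    ⟨h1, h3, fun h4 => absurd h4 (by rw [h2]; simp)⟩
  have hFA' : ∀ f ∈ F', Prom A' f := by
    intro f hf
    obtain ⟨Y, hYG, hfY, hY⟩ := hZf f hf
    have hfF : ∃ g ∈ F, g.1 = f.1 := by
      rcases Finset.mem_union.1 hf with h | h
      · exact ⟨f, h, rfl⟩
      · obtain ⟨g, hg, rfl⟩ := Finset.mem_image.1 h
        exact ⟨g, (Finset.mem_filter.1 hg).1, rfl⟩
    refine ⟨⟨(hF' f hf).1, hYG hfY, fun _ => Or.inl hfF⟩, fun m hm => ?_⟩
    obtain ⟨c, h1, h2, h3, h4, h5⟩ := hY m hm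
    exact ⟨c, hmem c h1 h2.1 (hYG h5), h2, h3, h4⟩
  refine ⟨A', hA'A, ⟨?_, ?_, ?_, ?_⟩, ?_, ?_⟩
  · obtain ⟨f, hf⟩ := hne
    exact ⟨f.1, (hFA' f (Finset.mem_union_left _ hf)).1⟩
  · intro t ht p
    obtain ⟨p', hp'⟩ := exists_nb_subset hGo ht.2.1
    obtain ⟨q, hq⟩ := hA.prom t ht.1 (max p p')
    refine ⟨q, ht, fun m hm => ?_⟩
    obtain ⟨c, h1, h2, h3, h4⟩ := hq.2 m hm
    exact ⟨c, hmem c h1 h2.1 (hp' (nb_anti _ (le_max_right _ _) h4)), h2, h3,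
      nb_anti _ (le_max_left _ _) h4⟩
  · intro t ht htb
    rcases ht.2.2 htb with ⟨f, hf, rfl⟩ | h
    · exact hFA' _ (Finset.mem_union_right _ (Finset.mem_image.2
        ⟨f, Finset.mem_filter.2 ⟨hf, htb⟩, rfl⟩))
    · refine ⟨ht, fun m hm => ?_⟩
      obtain ⟨c, h1, h2, h3, h4⟩ := (hA.full t ht.1 htb).2 m hm
      exact ⟨c, hmem c h1 h2.1 (h c h1 h2), h2, h3, h4⟩
  · intro t ht htb k
    obtain ⟨p', hp'⟩ := exists_nb_subset hGo ht.2.1
    obtain ⟨d, hd, hdA⟩ := hA.open' t ht.1 htb (max k p')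
    refine ⟨d, (le_max_left _ _).trans hd, hdA, ht.2.1, fun _ => Or.inr fun c _ hc => ?_⟩
    exact hp' (pt_mem_nb_of_C_mk hc ((le_max_right _ _).trans hd))
  · exact fun f hf => hFA' f (Finset.mem_union_left _ hf)
  · refine (closure_mono ?_).trans hGQ
    rintro _ ⟨t, ht, rfl⟩
    exact ht.2.1

end Run7.h953
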