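import Pool.Agent.Run7.h953.Model

set_option autoImplicit false

/-!
# The generic set of reals is a wQN-space
-/

namespace Run7.h953

open Set Topology Filter Sent

variable {e : K → ℝ}

/-- the hypothesis on the sequence of functions in the definition of `IsWQN` -/
def Hyp (e : K → ℝ) (F : ℕ → K → ℚ → Set PP) : Set PP :=
  fand (fall fun n => fand (fall fun y => IsReal (F n y)) (IsContinuous (En e) (F n)))
    (fall fun y => fall fun e : ℚ => fall fun _ : 0 < e => fex fun N : ℕ => fall fun n : ℕ =>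
      fall fun _ : N ≤ n => InIoo (F n y) (-e) e)

theorem reg_Hyp (F : ℕ → K → ℚ → Set PP) : Reg (Hyp e F) :=
  reg_fand (reg_fall fun _ => reg_fand (reg_fall fun _ => reg_IsReal _)
    (reg_fall fun _ => reg_fall fun _ => reg_fall fun _ => reg_fimp (reg_InIoo _ _ _).down _))
    (reg_fall fun _ => reg_fall fun _ => reg_fall fun _ => reg_fex _)

/-- the open sets `P k m` -/
def PK (F : ℕ → K → ℚ → Set PP) (q : PP) (k m : ℕ) : Set K :=
  {x | ∃ (s : Node) (l : ℕ), x ∈ nb (pt s) l ∧ q ∈ ThP F (k, m, s, l)}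

/-- the open sets `Q k m` -/
def QK (F : ℕ → K → ℚ → Set PP) (q : PP) (k m : ℕ) : Set K :=
  {x | ∃ (s : Node) (l : ℕ), x ∈ nb (pt s) l ∧ q ∈ ThQ F (k, m, s, l)}

theorem isOpen_PK (F : ℕ → K → ℚ → Set PP) (q : PP) (k m : ℕ) : IsOpen (PK F q k m) := by
  rw [isOpen_iff_mem_nhds]
  rintro x ⟨s, l, hx, hq⟩
  exact mem_of_superset ((isClopen_nb (pt s) l).isOpen.mem_nhds hx) fun y hy => ⟨s, l, hy, hq⟩

theorem isOpen_QK (F : ℕ → K → ℚ → Set PP) (q : PP) (k m : ℕ) : IsOpen (QK F q k m) := by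
  rw [isOpen_iff_mem_nhds]
  rintro x ⟨s, l, hx, hq⟩
  exact mem_of_superset ((isClopen_nb (pt s) l).isOpen.mem_nhds hx) fun y hy => ⟨s, l, hy, hq⟩

theorem fine_PK (he : IsEmbedding e) {F : ℕ → K → ℚ → Set PP} {q : PP}
    (hdQ : ∀ i, q ∈ ThQ F i ∨ q ∈ fnot (ThQ F i)) (hdP : ∀ i, q ∈ ThP F i ∨ q ∈ fnot (ThP F i))
    {r : PP} (hr : r ≤ q) (hF : r ∈ Hyp e F) {x : K} (hx : x ∈ r.1.X) (k : ℕ) :
    Fine (PK F q k) (QK F q k) x := by
  obtain ⟨hF1, hF2⟩ := hF
  refine ⟨fun m => ?_, ?_⟩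
  · obtain ⟨hreal, hcont⟩ := hF1 m
    obtain ⟨t, ht, z, hz⟩ := exists_val sigmaClosed_PP (hreal x)
    have hct : t ∈ IsContinuous (En e) (F m) :=
      (reg_fall fun _ => reg_fall fun _ => reg_fall fun _ =>
        reg_fimp (reg_InIoo _ _ _).down _).down _ hcont _ ht
    have hxt : x ∈ t.1.X := PP.mem_mono ht hx
    -- a neighbourhood where the function is in a given interval
    have key : ∀ a b : ℚ, (a : ℝ) < z → z < b → ∃ w ≤ t, ∃ (s : Node) (l : ℕ), x ∈ nb (pt s) l ∧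
        ∀ r ≤ w, ∀ y ∈ nb (pt s) l, y ∈ r.1.X → r ∈ InIoo (F m y) a b := fun a b h1 h2 =>
      exists_nb_of_cont he hct hxt (hz.inIoo.2 ⟨h1, h2⟩)
    have hpos : (0 : ℝ) < (1 / 2) ^ (k + 1) := by positivity
    have hpow : ((1 : ℝ) / 2) ^ k = 2 * (1 / 2) ^ (k + 1) := by
      rw [pow_succ]
      ring
    -- the case where the function is large
    have large : ∀ a b : ℚ, (a : ℝ) < z → z < b → (b ≤ -((1 / 2) ^ (k + 1)) ∨ (1 / 2) ^ (k + 1) ≤ a) →
        x ∈ PK F q k m := by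
      intro a b h1 h2 hab
      obtain ⟨w, hw, s, l, hxs, h3⟩ := key a b h1 h2
      have hwP : w ∈ ThP F (k, m, s, l) := by
        intro v hv y hy hyv hin
        have h4 : v ∈ InIoo (F m y) a b := h3 v hv y hy hyv
        have h5 : v ∈ IsReal (F m y) :=
          (reg_IsReal _).down _ (hreal y) _ (hv.trans (hw.trans ht))
        obtain ⟨v', hv', z', hz'⟩ := exists_val sigmaClosed_PP h5
        have h6 := hz'.inIoo.1 ((reg_InIoo _ _ _).down _ h4 _ hv')
        have h7 := hz'.inIoo.1 ((reg_InIoo _ _ _).down _ hin _ hv')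
        rcases hab with h8 | h8
        · have h9 : (b : ℝ) ≤ ((-((1 / 2) ^ (k + 1)) : ℚ) : ℝ) := by exact_mod_cast h8
          linarith [h6.2, h7.1]
        · have h9 : (((1 / 2) ^ (k + 1) : ℚ) : ℝ) ≤ a := by exact_mod_cast h8
          linarith [h6.1, h7.2]
      rcases hdP (k, m, s, l) with h | h
      · exact ⟨s, l, hxs, h⟩
      · exact absurd hwP (h w (hw.trans (ht.trans hr)))
    by_cases hzQ : -((1 : ℝ) / 2) ^ k < z ∧ z < (1 / 2) ^ k
    · right
      obtain ⟨w, hw, s, l, hxs, h3⟩ := key (-((1 / 2) ^ k)) ((1 / 2) ^ k)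
        (by push_cast; exact hzQ.1) (by push_cast; exact hzQ.2)
      have hwQ : w ∈ ThQ F (k, m, s, l) := fun v hv y hy hyv => h3 v hv y hy hyv
      rcases hdQ (k, m, s, l) with h | h
      · exact ⟨s, l, hxs, h⟩
      · exact absurd hwQ (h w (hw.trans (ht.trans hr)))
    · left
      rw [not_and_or, not_lt, not_lt] at hzQ
      rcases hzQ with h | h
      · obtain ⟨a, ha⟩ := exists_rat_lt z
        refine large a (-((1 / 2) ^ (k + 1))) ha ?_ (Or.inl le_rfl)
        push_cast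
        linarith
      · obtain ⟨b, hb⟩ := exists_rat_gt z
        refine large ((1 / 2) ^ (k + 1)) b ?_ hb (Or.inr le_rfl)
        push_cast
        linarith
  · have hpos : (0 : ℚ) < (1 / 2) ^ (k + 1) := by positivity
    obtain ⟨t, ht, N, hN⟩ := mem_fex.1 (hF2 x ((1 / 2) ^ (k + 1)) hpos) r le_rfl
    refine (finite_lt_nat N).subset fun m hm => ?_
    obtain ⟨s, l, hxs, hq⟩ := hm
    by_contra hc
    have hNm : N ≤ m := not_lt.1 hc
    exact hq t (ht.trans hr) x hxs (PP.mem_mono ht hx) (hN m hNm)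

/-- ground model sequences of naturals -/
theorem isFun_ground {I J : Type} (f : I → J) (p : PP) :
    p ∈ IsFun (fun i j => ({_p | j = f i} : Set PP)) := by
  refine ⟨fun i => fex_intro (f i) (reg_meets _).down (meets_of_mem rfl), fun i j j' =>
    fimp_intro fun q _ h => ?_⟩
  obtain ⟨_, _, _, h1, _⟩ := h.1 q le_rfl
  obtain ⟨_, _, _, h2, _⟩ := h.2 q le_rfl
  have h1' : j = f i := h1
  have h2' : j' = f i := h2
  exact h1'.trans h2'.symm

theorem meets_ground {h : Prop} {p : PP} : p ∈ meets ({_p | h} : Set PP) ↔ h := by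
  constructor
  · intro h1
    obtain ⟨_, _, _, h2, _⟩ := h1 p le_rfl
    exact h2
  · exact fun h1 => meets_of_mem h1

theorem isWQN_En (he : IsEmbedding e) (p : PP) : p ∈ IsWQN (En e) := by
  intro F
  change p ∈ fimp (Hyp e F) _
  refine mem_fimp.2 fun q _ hF => ?_
  obtain ⟨q1, hq1, hdQ⟩ := decide_countable sigmaClosed_PP (fun i => ThQ F i) down_ThQ q
  obtain ⟨q2, hq2, hdP⟩ := decide_countable sigmaClosed_PP (fun i => ThP F i) down_ThP q1
  have hdQ2 : ∀ i, q2 ∈ ThQ F i ∨ q2 ∈ fnot (ThQ F i) := fun i =>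
    (hdQ i).imp (fun h => down_ThQ i _ h _ hq2) fun h => down_fnot _ _ h _ hq2
  have hF2 : q2 ∈ Hyp e F := (reg_Hyp F).down _ hF _ (hq2.trans hq1)
  obtain ⟨r0, hr0, halt⟩ := dense_select q2.1 (isOpen_PK F q2) (isOpen_QK F q2)
  obtain ⟨r, hr, rfl⟩ := PP.lift hr0
  have hFr : r ∈ Hyp e F := (reg_Hyp F).down _ hF2 _ hr
  refine ⟨r, hr.trans (hq2.trans hq1), ?_⟩
  rcases halt with ⟨x, hx, k, hk⟩ | ⟨μ, hμ, h1, h2⟩
  · exact absurd (fine_PK he hdQ2 hdP hr hFr hx k) hk
  · -- the points of the generic set are eventually in the sets `Q k (μ k)`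
    have hall : ∀ t ≤ r, ∀ x ∈ t.1.X, ∀ᶠ k in atTop, x ∈ QK F q2 k (μ k) := by
      intro t ht x hx
      by_cases hxr : x ∈ r.1.X
      · exact h1 x hxr
      · obtain ⟨A, hA, hxA⟩ := ht.2.1 x hx hxr
        exact h2 A hA x hxA
    refine mem_fex.2 fun r1 hr1 => ⟨r1, le_rfl, (fun n a => {_p | a = μ n}),
      mem_fex.2 fun r2 hr2 => ⟨r2, le_rfl, (fun n a => {_p | a = (1 / 2) ^ n}),
        ⟨⟨isFun_ground _ _, fun n a b => fimp_intro fun v _ hv => ?_⟩,
          isFun_ground _ _, fun n a => fimp_intro fun v _ hv => ?_, fun ε hε => ?_⟩,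
        fun y => ?_⟩⟩
    · have ha : a = μ n := meets_ground.1 hv.1
      have hb : b = μ (n + 1) := meets_ground.1 hv.2
      show a < b
      rw [ha, hb]
      exact hμ (Nat.lt_succ_self n)
    · have ha : a = (1 / 2) ^ n := meets_ground.1 hv
      show 0 < a
      rw [ha]
      positivity
    · obtain ⟨N, hN⟩ := exists_pow_lt_of_lt_one hε (show (1 / 2 : ℚ) < 1 by norm_num)
      refine fex_intro N (reg_fall fun _ => reg_fall fun _ => reg_fall fun _ =>
        reg_fimp (reg_meets _).down _).down fun n hn a => fimp_intro fun v _ hv => ?_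
      have ha : a = (1 / 2) ^ n := meets_ground.1 hv
      show a < ε
      rw [ha]
      exact (pow_le_pow_of_le_one (by norm_num) (by norm_num) hn).trans_lt hN
    · refine mem_fex.2 fun r3 hr3 => ?_
      obtain ⟨r4, hr4, x, hx, hval⟩ := exists_point (e := e) r3 y
      have hr4r : r4 ≤ r := hr4.trans (hr3.trans (hr2.trans hr1))
      obtain ⟨N, hN⟩ := (hall r4 hr4r x hx).exists_forall_of_atTop
      refine ⟨r4, hr4, N, fun n hn m ε => fimp_intro fun v hv hmε => ?_⟩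
      have hm : m = μ n := meets_ground.1 hmε.1
      have hε : ε = (1 / 2) ^ n := meets_ground.1 hmε.2
      subst hm hε
      obtain ⟨s, l, hxs, hq⟩ := hN n hn
      have hvr : v ≤ r := hv.trans hr4r
      have hxv : x ∈ v.1.X := PP.mem_mono hv hx
      have h5 : v ∈ InIoo (F (μ n) x) (-((1 / 2) ^ n)) ((1 / 2) ^ n) :=
        hq v (hvr.trans hr) x hxs hxv
      -- transfer from `x` to `y`
      obtain ⟨-, hcont⟩ := ((reg_Hyp F).down _ hFr _ hvr).1 (μ n)
      refine (reg_InIoo _ _ _).dense _ fun w hw => ?_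
      have h6 := fimp_elim (reg_InIoo _ _ _).down (reg_fex _)
        (hcont x (-((1 / 2) ^ n)) ((1 / 2) ^ n)) le_rfl h5
      obtain ⟨w1, hw1, c, h7⟩ := mem_fex.1 h6 w hw
      obtain ⟨w2, hw2, d, h8, h9⟩ := mem_fex.1 h7 w1 le_rfl
      have hw2v : w2 ≤ v := hw2.trans (hw1.trans hw)
      have h10 : w2 ∈ InIoo (En e y) c d := by
        have h11 := (isVal_mem (PP.mem_mono hw2v hxv)).inIoo.1 h8
        exact ((hval.mono hv).mono hw2v).inIoo.2 h11
      exact ⟨w2, hw2.trans hw1, fimp_elim (reg_InIoo _ _ _).down (reg_InIoo _ _ _) (h9 y) le_rfl h10⟩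

end Run7.h953
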